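import Pool.Agent.T6.H63.RW.Uniq

/-!
# Short refutations of games of value less than `1 / k`, if each vertex of `U` has at most `k` kernels
-/

open scoped Classical
open Finset

namespace Pool.Agent.T6.H63.RW

section

variable {V Λ : Type} [Fintype V] [Fintype Λ]

/-- the line `c v (L v) = σ (c v0 (L v0))` -/
noncomputable def relC (c : V → Λ → Λ) (v0 v : V) (σ : Λ → Λ) : Line V Λ where
  un _ := ∅
  dom := {v0, v}
  pred L := c v (L v) = σ (c v0 (L v0))
  loc L L' h h1 := by
    rw [← h v (by simp), ← h v0 (by simp)]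
    exact h1

theorem relC_dom (c : V → Λ → Λ) (v0 v : V) (σ : Λ → Λ) : (relC c v0 v σ).dom.card ≤ 2 :=
  card_le_two

theorem relC_holds {c : V → Λ → Λ} {v0 v : V} {σ : Λ → Λ} {L : V → Λ} :
    (relC c v0 v σ).Holds L ↔ c v (L v) = σ (c v0 (L v0)) := by
  constructor
  · rintro (⟨w, hw⟩ | h)
    · exact absurd hw (notMem_empty _)
    · exact h
  · exact fun h => Or.inr h

end

section

variable {N q m : ℕ}

/-- the line `j ≤ c (L v0)` -/
def leC (c : Fin N ⊕ Fin N → Fin q → Fin q) (v0 : Fin N ⊕ Fin N) (j : ℕ) :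
    Line (Fin N ⊕ Fin N) (Fin q) where
  un _ := ∅
  dom := {v0}
  pred L := j ≤ (c v0 (L v0) : ℕ)
  loc L L' h h1 := by
    rw [← h v0 (by simp)]
    exact h1

theorem leC_holds {c : Fin N ⊕ Fin N → Fin q → Fin q} {v0 : Fin N ⊕ Fin N} {j : ℕ}
    {L : Fin N ⊕ Fin N → Fin q} : (leC c v0 j).Holds L ↔ j ≤ (c v0 (L v0) : ℕ) := by
  constructor
  · rintro (⟨w, hw⟩ | h)
    · exact absurd hw (notMem_empty _)
    · exact h
  · exact fun h => Or.inr h

/-- no edge of `A` leaves the set -/
def CloA (G : Game N q m) (A : Finset (Fin m)) (C : Finset (Fin N ⊕ Fin N)) : Prop :=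
  ∀ e ∈ A, Sum.inl (G.src e) ∈ C ↔ Sum.inr (G.tgt e) ∈ C

/-- `ρ` and `c` describe the constraints of the edges in `A`: `map e = ρ e ∘ c (src e)`, with `ρ e`
injective on the range of `c (src e)` -/
structure Desc (G : Game N q m) (A : Finset (Fin m)) (c : Fin N ⊕ Fin N → Fin q → Fin q)
    (ρ : Fin m → Fin q → Fin q) : Prop where
  eq : ∀ e ∈ A, ∀ a, G.map e a = ρ e (c (Sum.inl (G.src e)) a)
  inj : ∀ e ∈ A, ∀ a b, ρ e (c (Sum.inl (G.src e)) a) = ρ e (c (Sum.inl (G.src e)) b) →
    c (Sum.inl (G.src e)) a = c (Sum.inl (G.src e)) b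
  id : ∀ v a, c (Sum.inr v) a = a

/-- label propagation along the edges in `A` -/
theorem propagateC (G : Game N q m) (A : Finset (Fin m)) (c : Fin N ⊕ Fin N → Fin q → Fin q)
    (ρ : Fin m → Fin q → Fin q) (hd : Desc G A c ρ)
    (Z : Finset (Fin N ⊕ Fin N)) (hZ : CloA G A Z) (v0 : Fin N ⊕ Fin N) (hv0 : v0 ∉ Z) :
    ∃ (C : Finset (Fin N ⊕ Fin N)) (σ : Fin N ⊕ Fin N → Fin q → Fin q)
      (l : List (Line (Fin N ⊕ Fin N) (Fin q))), Disjoint C Z ∧ v0 ∈ C ∧ CloA G A C ∧
      Deriv G.SatIn 3 2 l ∧ l.length ≤ C.card ∧ ∀ v ∈ C, relC c v0 v (σ v) ∈ l := by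
  let T : Finset (Finset (Fin N ⊕ Fin N)) := univ.filter fun C =>
    ∃ (σ : Fin N ⊕ Fin N → Fin q → Fin q) (l : List (Line (Fin N ⊕ Fin N) (Fin q))),
      Disjoint C Z ∧ v0 ∈ C ∧ Deriv G.SatIn 3 2 l ∧ l.length ≤ C.card ∧
      ∀ v ∈ C, relC c v0 v (σ v) ∈ l
  have hT : ({v0} : Finset (Fin N ⊕ Fin N)) ∈ T := by
    refine mem_filter.2 ⟨mem_univ _, fun _ => _root_.id, [relC c v0 v0 _root_.id], ?_,
      mem_singleton_self _, ?_, ?_, ?_⟩
    · rw [disjoint_singleton_left]
      exact hv0
    · have h1 : Deriv G.SatIn 3 2 ([] ++ [relC c v0 v0 _root_.id]) := by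
        refine Deriv.nil.snoc (relC_dom _ _ _ _) ⟨[], by simp, by simp, ∅, by simp, ?_⟩
        intro L _ _
        exact relC_holds.2 rfl
      exact h1
    · simp
    · intro v hv
      rw [mem_singleton] at hv
      subst hv
      simp
  obtain ⟨C, hC, hmax⟩ := Finset.exists_max_image T card ⟨_, hT⟩
  obtain ⟨-, σ, l, h1, h2, h3, h4, h5⟩ := mem_filter.1 hC
  -- adding a vertex
  have hadd : ∀ u w : Fin N ⊕ Fin N, u ∈ C → w ∉ C → w ∉ Z → ∀ g : Fin q → Fin q,
      (∀ L, G.SatIn {u, w} L → c w (L w) = g (c u (L u))) → False := by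
    intro u w hu hw hwZ g hg
    have h6 : insert w C ∈ T := by
      refine mem_filter.2 ⟨mem_univ _, Function.update σ w (g ∘ σ u),
        l ++ [relC c v0 w (g ∘ σ u)], ?_, mem_insert_of_mem h2, ?_, ?_, ?_⟩
      · rw [disjoint_insert_left]
        exact ⟨hwZ, h1⟩
      · refine h3.snoc (relC_dom _ _ _ _)
          ⟨[relC c v0 u (σ u)], by simp, ?_, {u, w}, card_le_two, ?_⟩
        · intro y hy
          rw [List.mem_singleton] at hy
          subst hy
          exact h5 u hu
        · intro L hL hy
          have h7 := relC_holds.1 (hy _ (List.mem_singleton_self _))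
          apply relC_holds.2
          rw [hg L hL, h7]
          rfl
      · rw [List.length_append, List.length_singleton, card_insert_of_notMem hw]
        omega
      · intro v hv
        rw [List.mem_append, List.mem_singleton]
        by_cases hvw : v = w
        · subst hvw
          right
          rw [Function.update_self]
        · left
          rw [Function.update_of_ne hvw]
          exact h5 v (mem_of_mem_insert_of_ne hv hvw)
    have h8 := hmax _ h6
    rw [card_insert_of_notMem hw] at h8
    omega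
  refine ⟨C, σ, l, h1, h2, ?_, h3, h4, h5⟩
  intro e he
  constructor
  · intro h6
    by_contra h7
    have h8 : Sum.inr (G.tgt e) ∉ Z := by
      intro h9
      exact disjoint_left.1 h1 h6 ((hZ e he).2 h9)
    refine hadd _ _ h6 h7 h8 (ρ e) fun L hL => ?_
    have h9 : G.map e (L (Sum.inl (G.src e))) = L (Sum.inr (G.tgt e)) := hL e (by simp) (by simp)
    rw [hd.id, ← h9, hd.eq e he]
  · intro h6
    by_contra h7
    have h8 : Sum.inl (G.src e) ∉ Z := by
      intro h9
      exact disjoint_left.1 h1 h6 ((hZ e he).1 h9)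
    let g : Fin q → Fin q := fun b =>
      if h : ∃ a, ρ e (c (Sum.inl (G.src e)) a) = b then c (Sum.inl (G.src e)) h.choose else b
    refine hadd _ _ h6 h7 h8 g fun L hL => ?_
    have h9 : G.map e (L (Sum.inl (G.src e))) = L (Sum.inr (G.tgt e)) := hL e (by simp) (by simp)
    rw [hd.id, ← h9, hd.eq e he]
    have h10 : ∃ a, ρ e (c (Sum.inl (G.src e)) a) =
        ρ e (c (Sum.inl (G.src e)) (L (Sum.inl (G.src e)))) := ⟨_, rfl⟩
    show _ = dite _ _ _
    rw [dif_pos h10]
    exact (hd.inj e he _ _ h10.choose_spec).symm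

/-- if no labelling satisfies all edges of `A` then there is a short refutation -/
theorem short_of_desc (G : Game N q m) (A : Finset (Fin m)) (c : Fin N ⊕ Fin N → Fin q → Fin q)
    (ρ : Fin m → Fin q → Fin q) (hd : Desc G A c ρ) (hun : ∀ L, ∃ e ∈ A, ¬ G.Sat L e) :
    ∃ s : ℕ, s ≤ 2 * N + q + 1 ∧ Nonempty (G.Refutation 3 2 s) := by
  let T : Finset (Finset (Fin N ⊕ Fin N)) := univ.filter fun Z =>
    CloA G A Z ∧ ∃ L, ∀ e ∈ A, Sum.inl (G.src e) ∈ Z → G.Sat L e
  by_cases hq : 1 ≤ q
  swap
  · -- no labels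
    have hq0 : q = 0 := by omega
    subst hq0
    by_cases hN : 1 ≤ N
    · refine ⟨1, by omega, ⟨⟨fun _ => leLine (Sum.inl ⟨0, hN⟩) 0, ?_, ?_, ?_⟩⟩⟩
      · intro _
        show ({Sum.inl ⟨0, hN⟩} : Finset (Fin N ⊕ Fin N)).card ≤ 2
        simp
      · intro i
        refine ⟨∅, by simp, by simp, ∅, by simp, fun L => ?_⟩
        exact (L (Sum.inl ⟨0, hN⟩)).elim0
      · exact ⟨0, fun _ => rfl, fun L => (L (Sum.inl ⟨0, hN⟩)).elim0⟩
    · obtain ⟨e, -⟩ := hun fun v => by
        rcases v with v | v
        · exact absurd v.2 (by omega)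
        · exact absurd v.2 (by omega)
      exact absurd (G.src e).2 (by omega)
  have hT : (∅ : Finset (Fin N ⊕ Fin N)) ∈ T := by
    refine mem_filter.2 ⟨mem_univ _, fun e _ => by simp, fun _ => ⟨0, hq⟩, fun e _ he => ?_⟩
    exact absurd he (notMem_empty _)
  obtain ⟨Z, hZ, hmax⟩ := Finset.exists_max_image T card ⟨_, hT⟩
  obtain ⟨-, hZ1, L0, hL0⟩ := mem_filter.1 hZ
  have hZu : ∃ v0, v0 ∉ Z := by
    by_contra hc
    push Not at hc
    obtain ⟨e, heA, he⟩ := hun L0
    exact he (hL0 e heA (hc _))
  obtain ⟨v0, hv0⟩ := hZu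
  obtain ⟨C, σ, l, h1, h2, h3, h4, h5, h6⟩ := propagateC G A c ρ hd Z hZ1 v0 hv0
  -- `a` is good if it can be extended to `C`
  have hbad : ∀ a : Fin q, (∃ v ∈ C, ∀ b, c v b ≠ σ v a) ∨
      ∃ e ∈ A, Sum.inl (G.src e) ∈ C ∧ ρ e (σ (Sum.inl (G.src e)) a) ≠ σ (Sum.inr (G.tgt e)) a := by
    intro a
    by_contra hc
    push Not at hc
    obtain ⟨hc1, hc2⟩ := hc
    have : Nonempty (Fin q) := ⟨⟨0, hq⟩⟩
    choose! f hf using hc1
    have h7 : Z ∪ C ∈ T := by
      refine mem_filter.2 ⟨mem_univ _, fun e he => ?_, fun v => if v ∈ C then f v else L0 v,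
        fun e he1 he => ?_⟩
      · rw [mem_union, mem_union, hZ1 e he, h3 e he]
      · unfold Game.Sat
        by_cases h8 : Sum.inl (G.src e) ∈ C
        · have h9 := (h3 e he1).1 h8
          simp only [h8, h9, if_true]
          rw [hd.eq e he1, hf _ h8, hc2 e he1 h8, ← hf _ h9, hd.id]
        · have h9 : Sum.inr (G.tgt e) ∉ C := fun h => h8 ((h3 e he1).2 h)
          simp only [h8, h9, if_false]
          rw [mem_union] at he
          exact hL0 e he1 (he.resolve_right h8)
    have h8 := hmax _ h7
    rw [card_union_of_disjoint h1.symm] at h8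
    have h9 : 0 < C.card := card_pos.2 ⟨v0, h2⟩
    omega
  -- excluding the classes of labels of `v0` one by one
  have key : ∀ j : ℕ, j ≤ q → ∃ l' : List (Line (Fin N ⊕ Fin N) (Fin q)),
      Deriv G.SatIn 3 2 l' ∧ l'.length ≤ C.card + j + 1 ∧
      (∀ v ∈ C, relC c v0 v (σ v) ∈ l') ∧ leC c v0 j ∈ l' := by
    intro j
    induction j with
    | zero =>
      intro _
      refine ⟨l ++ [leC c v0 0], h4.snoc ?_ ⟨[], by simp, by simp, ∅, by simp, ?_⟩, ?_, ?_, ?_⟩
      · show ({v0} : Finset (Fin N ⊕ Fin N)).card ≤ 2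
        simp
      · intro L _ _
        exact leC_holds.2 (Nat.zero_le _)
      · rw [List.length_append, List.length_singleton]
        omega
      · intro v hv
        exact List.mem_append_left _ (h6 v hv)
      · simp
    | succ j ih =>
      intro hj
      obtain ⟨l', g1, g2, g3, g4⟩ := ih (by omega)
      have hjq : j < q := by omega
      have hstep : Follows G.SatIn 3 2 l' (leC c v0 (j + 1)) := by
        rcases hbad ⟨j, hjq⟩ with ⟨v, hv, hb⟩ | ⟨e, heA, he, hne⟩
        · refine ⟨[leC c v0 j, relC c v0 v (σ v)], by simp, ?_, ∅, by simp, ?_⟩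
          · intro y hy
            simp only [List.mem_cons, List.not_mem_nil, or_false] at hy
            rcases hy with rfl | rfl
            · exact g4
            · exact g3 _ hv
          · intro L _ hy
            have k1 := leC_holds.1 (hy (leC c v0 j) (by simp))
            have k2 := relC_holds.1 (hy (relC c v0 v (σ v)) (by simp))
            apply leC_holds.2
            by_contra hcon
            have k5 : c v0 (L v0) = ⟨j, hjq⟩ := Fin.ext (by simp only; omega)
            rw [k5] at k2
            exact hb _ k2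
        · refine ⟨[leC c v0 j, relC c v0 (Sum.inl (G.src e)) (σ (Sum.inl (G.src e))),
            relC c v0 (Sum.inr (G.tgt e)) (σ (Sum.inr (G.tgt e)))], by simp, ?_,
            {Sum.inl (G.src e), Sum.inr (G.tgt e)}, card_le_two, ?_⟩
          · intro y hy
            simp only [List.mem_cons, List.not_mem_nil, or_false] at hy
            rcases hy with rfl | rfl | rfl
            · exact g4
            · exact g3 _ he
            · exact g3 _ ((h3 _ heA).1 he)
          · intro L hL hy
            have k1 := leC_holds.1 (hy (leC c v0 j) (by simp))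
            have k2 := relC_holds.1 (hy (relC c v0 (Sum.inl (G.src e))
              (σ (Sum.inl (G.src e)))) (by simp))
            have k3 := relC_holds.1 (hy (relC c v0 (Sum.inr (G.tgt e))
              (σ (Sum.inr (G.tgt e)))) (by simp))
            have k4 : G.map e (L (Sum.inl (G.src e))) = L (Sum.inr (G.tgt e)) :=
              hL e (by simp) (by simp)
            apply leC_holds.2
            by_contra hcon
            have k5 : c v0 (L v0) = ⟨j, hjq⟩ := Fin.ext (by simp only; omega)
            rw [hd.id] at k3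
            rw [hd.eq e heA, k2, k3, k5] at k4
            exact hne k4
      refine ⟨l' ++ [leC c v0 (j + 1)], g1.snoc ?_ hstep, ?_, ?_, ?_⟩
      · show ({v0} : Finset (Fin N ⊕ Fin N)).card ≤ 2
        simp
      · rw [List.length_append, List.length_singleton]
        omega
      · intro v hv
        exact List.mem_append_left _ (g3 v hv)
      · simp
  obtain ⟨l', g1, g2, g3, g4⟩ := key q le_rfl
  have hC : C.card ≤ 2 * N := by
    refine (card_le_univ C).trans ?_
    rw [Fintype.card_sum, Fintype.card_fin]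
    omega
  refine ⟨l'.length, by omega, ⟨⟨fun j => l'[j], fun i => (g1 i i.2).1, fun i => g1.step i, ?_⟩⟩⟩
  obtain ⟨i, hi, hi2⟩ := List.mem_iff_getElem.1 g4
  refine ⟨⟨i, hi⟩, fun v => ?_, fun L hL => ?_⟩
  · show (l'[i]).un v = ∅
    rw [hi2]
    rfl
  · have k1 : (l'[i]).pred L := hL
    rw [hi2] at k1
    have k2 : q ≤ (c v0 (L v0) : ℕ) := k1
    have := (c v0 (L v0)).2
    omega

/-- the kernel of the constraint: the pairs of labels with the same image -/
def Game.ker (G : Game N q m) (e : Fin m) : Finset (Fin q × Fin q) :=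
  univ.filter fun x => G.map e x.1 = G.map e x.2

/-- if the constraints at each vertex of `U` have at most `k` different kernels, and every
labelling satisfies less than `m / k` of the edges, then there is a short refutation -/
theorem short_of_kernels (G : Game N q m) (k : ℕ)
    (hk : ∀ u, ((univ.filter fun e => G.src e = u).image G.ker).card ≤ k)
    (hv : ∀ L, k * (univ.filter fun e => G.Sat L e).card < m) :
    ∃ s : ℕ, s ≤ 2 * N + q + 1 ∧ Nonempty (G.Refutation 3 2 s) := by
  -- the most frequent kernel at each vertex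
  have hmost : ∀ u : Fin N, ∃ κ : Finset (Fin q × Fin q),
      (univ.filter fun e => G.src e = u).card ≤
        k * (univ.filter fun e => G.src e = u ∧ G.ker e = κ).card := by
    intro u
    by_contra hc
    push Not at hc
    have h1 : (univ.filter fun e => G.src e = u).card =
        ∑ κ ∈ (univ.filter fun e => G.src e = u).image G.ker,
          (univ.filter fun e => G.src e = u ∧ G.ker e = κ).card := by
      rw [card_eq_sum_card_image G.ker]
      refine sum_congr rfl fun κ _ => ?_
      rw [filter_filter]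
    rcases (univ.filter fun e => G.src e = u).eq_empty_or_nonempty with h0 | h0
    · have := hc ∅
      rw [h0, card_empty] at this
      exact absurd this (Nat.not_lt_zero _)
    · have h2 : k * (univ.filter fun e => G.src e = u).card <
          ((univ.filter fun e => G.src e = u).image G.ker).card *
            (univ.filter fun e => G.src e = u).card := by
        conv_lhs => rw [h1]
        rw [mul_sum]
        calc ∑ κ ∈ (univ.filter fun e => G.src e = u).image G.ker,
              k * (univ.filter fun e => G.src e = u ∧ G.ker e = κ).card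
            < ∑ _κ ∈ (univ.filter fun e => G.src e = u).image G.ker,
              (univ.filter fun e => G.src e = u).card :=
              sum_lt_sum_of_nonempty (h0.image _) fun κ _ => hc κ
          _ = _ := by rw [sum_const, smul_eq_mul]
      have h3 := Nat.mul_le_mul_right (univ.filter fun e => G.src e = u).card (hk u)
      omega
  choose κ hκ using hmost
  set A : Finset (Fin m) := univ.filter fun e => G.ker e = κ (G.src e) with hA
  have hAc : m ≤ k * A.card := by
    have h1 : m = ∑ u : Fin N, (univ.filter fun e => G.src e = u).card := by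
      have h2 := card_eq_sum_card_fiberwise (f := G.src) (s := (univ : Finset (Fin m)))
        (t := (univ : Finset (Fin N))) (fun _ _ => mem_coe.2 (mem_univ _))
      rw [card_univ, Fintype.card_fin] at h2
      exact h2
    have h3 : A.card = ∑ u : Fin N, (univ.filter fun e => G.src e = u ∧ G.ker e = κ u).card := by
      have h2 := card_eq_sum_card_fiberwise (f := G.src) (s := A)
        (t := (univ : Finset (Fin N))) (fun _ _ => mem_coe.2 (mem_univ _))
      rw [h2]
      refine sum_congr rfl fun u _ => ?_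
      congr 1
      ext e
      simp only [hA, mem_filter, mem_univ, true_and]
      constructor
      · rintro ⟨h4, h5⟩
        rw [h5] at h4
        exact ⟨h5, h4⟩
      · rintro ⟨h4, h5⟩
        rw [h4]
        exact ⟨h5, rfl⟩
    rw [h3, mul_sum]
    calc m = ∑ u : Fin N, (univ.filter fun e => G.src e = u).card := h1
      _ ≤ _ := sum_le_sum fun u _ => hκ u
  -- the classes: the least label with the same image
  have hcls : ∀ u : Fin N, ∃ cu : Fin q → Fin q, ∀ e ∈ A, G.src e = u →
      ∀ a b, cu a = cu b ↔ G.map e a = G.map e b := by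
    intro u
    by_cases he : ∃ e0 ∈ A, G.src e0 = u
    · obtain ⟨e0, h1, h2⟩ := he
      refine ⟨G.map e0, fun e h3 h4 a b => ?_⟩
      have h5 : G.ker e0 = G.ker e := by
        rw [(mem_filter.1 h1).2, (mem_filter.1 h3).2, h2, h4]
      have h6 : (a, b) ∈ G.ker e0 ↔ (a, b) ∈ G.ker e := by rw [h5]
      simpa [Game.ker] using h6
    · push Not at he
      exact ⟨fun a => a, fun e h3 h4 => absurd h4 (he e h3)⟩
  choose cu hcu using hcls
  let c : Fin N ⊕ Fin N → Fin q → Fin q := fun v =>
    match v with
    | Sum.inl u => cu u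
    | Sum.inr _ => _root_.id
  let ρ : Fin m → Fin q → Fin q := fun e b =>
    if h : ∃ a, cu (G.src e) a = b then G.map e h.choose else b
  have hρ : ∀ e ∈ A, ∀ a, G.map e a = ρ e (c (Sum.inl (G.src e)) a) := by
    intro e he a
    have h1 : ∃ a', cu (G.src e) a' = cu (G.src e) a := ⟨a, rfl⟩
    show _ = dite _ _ _
    rw [dif_pos h1]
    exact ((hcu _ e he rfl _ _).1 h1.choose_spec).symm
  refine short_of_desc G A c ρ ⟨hρ, fun e he a b hab => ?_, fun _ _ => rfl⟩ fun L => ?_
  · rw [← hρ e he, ← hρ e he] at hab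
    exact (hcu _ e he rfl _ _).2 hab
  · by_contra hcon
    push Not at hcon
    have h1 : A ⊆ univ.filter fun e => G.Sat L e := fun e he =>
      mem_filter.2 ⟨mem_univ _, hcon e he⟩
    have h2 := Nat.mul_le_mul_left k (card_le_card h1)
    have h3 := hv L
    omega

end

end Pool.Agent.T6.H63.RW
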