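import Mathlib

/-!
# Numerical estimates
-/

open Real

namespace Pool.Agent.T6.H63.RW

theorem choose_le (M K : ℕ) (a : ℝ) (ha : 0 < a) (hK : (M : ℝ) ≤ a * K) :
    ((M.choose K : ℕ) : ℝ) ≤ (3 * a) ^ K := by
  rcases Nat.eq_zero_or_pos K with h0 | h0
  · subst h0
    simp
  have hK0 : (0 : ℝ) < K := by exact_mod_cast h0
  have h1 : ((M.choose K : ℕ) : ℝ) ≤ (M : ℝ) ^ K / K.factorial := Nat.choose_le_pow_div K M
  have h2 : (K : ℝ) ^ K / K.factorial ≤ exp K :=
    pow_div_factorial_le_exp (K : ℝ) (by positivity) K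
  have h3 : exp (K : ℝ) ≤ 3 ^ K := by
    have : exp (K : ℝ) = exp 1 ^ K := by rw [← exp_nat_mul, mul_one]
    rw [this]
    exact pow_le_pow_left₀ (exp_pos 1).le (exp_one_lt_d9.le.trans (by norm_num)) K
  calc ((M.choose K : ℕ) : ℝ) ≤ (M : ℝ) ^ K / K.factorial := h1
    _ ≤ (a * K) ^ K / K.factorial := by
        refine div_le_div_of_nonneg_right ?_ (by positivity)
        exact pow_le_pow_left₀ (by positivity) hK K
    _ = a ^ K * ((K : ℝ) ^ K / K.factorial) := by rw [mul_pow]; ring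
    _ ≤ a ^ K * 3 ^ K := mul_le_mul_of_nonneg_left (h2.trans h3) (by positivity)
    _ = (3 * a) ^ K := by rw [mul_pow]; ring

/-- the choice of the prime -/
theorem exists_prime (δ : ℝ) (h0 : 0 < δ) (h1 : δ < 1) : ∃ p : ℕ, p.Prime ∧
    (2 * p : ℕ) ≤ 300 / δ * log (2 / δ) ∧ 6 * log (2 / δ) ≤ p * δ / 12 := by
  have hu : log 2 ≤ log (2 / δ) := by
    apply log_le_log (by norm_num)
    rw [le_div_iff₀ h0]
    nlinarith
  have hl2 : (0.6931471803 : ℝ) < log 2 := log_two_gt_d9
  set u := log (2 / δ) with hu'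
  have hupos : 0 < u := by linarith
  set X := u / δ with hX
  have hXu : u ≤ X := by
    rw [hX, le_div_iff₀ h0]
    nlinarith
  have hX0 : 0 < X := by positivity
  obtain ⟨p, hp, hp1, hp2⟩ := Nat.exists_prime_lt_and_le_two_mul ⌈72 * X⌉₊
    (by
      have : 0 < ⌈72 * X⌉₊ := Nat.ceil_pos.2 (by positivity)
      omega)
  refine ⟨p, hp, ?_, ?_⟩
  · have h2 : (⌈72 * X⌉₊ : ℝ) < 72 * X + 1 := Nat.ceil_lt_add_one (by positivity)
    have h3 : (p : ℝ) ≤ 2 * ⌈72 * X⌉₊ := by exact_mod_cast hp2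
    push_cast
    have h4 : 300 / δ * u = 300 * X := by rw [hX]; ring
    rw [h4]
    nlinarith
  · have h2 : 72 * X ≤ ⌈72 * X⌉₊ := Nat.le_ceil _
    have h3 : (⌈72 * X⌉₊ : ℝ) < p := by exact_mod_cast hp1
    have h4 : 72 * X < p := lt_of_le_of_lt h2 h3
    have h5 : 72 * u < p * δ := by
      have : 72 * X * δ < p * δ := mul_lt_mul_of_pos_right h4 h0
      rw [hX] at this
      field_simp at this
      linarith
    linarith

/-- the union bound -/
theorem union_bound (δ : ℝ) (h0 : 0 < δ) (h1 : δ < 1) (p n K : ℕ) (hp : p.Prime) (hn : 1 ≤ n)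
    (hpδ : 6 * log (2 / δ) ≤ p * δ / 12) (hK : δ * p * n / 4 ≤ K) :
    (2 * p ^ 2) ^ n * (n * p).choose K < p ^ K := by
  have hu : log 2 ≤ log (2 / δ) := by
    apply log_le_log (by norm_num)
    rw [le_div_iff₀ h0]
    nlinarith
  have hl2 : (0.6931471803 : ℝ) < log 2 := log_two_gt_d9
  set β : ℝ := p * δ / 12 with hβ
  have hp0 : (0 : ℝ) < p := by exact_mod_cast hp.pos
  have hβ4 : 4 ≤ β := by
    refine le_trans ?_ hpδ
    linarith
  have hβpos : 0 < β := by linarith
  have hn0 : (0 : ℝ) < n := by exact_mod_cast hn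
  have hK3 : 3 * β * n ≤ K := by
    refine le_trans (le_of_eq ?_) hK
    rw [hβ]
    ring
  have hlβ : 1 ≤ log β := by
    rw [le_log_iff_exp_le hβpos]
    have := exp_one_lt_d9
    linarith
  have hlp : log (2 * (p : ℝ) ^ 2) < 3 * β * log β := by
    have e1 : (p : ℝ) = 6 * β * (2 / δ) := by
      rw [hβ]
      field_simp
      ring
    have e2 : log (p : ℝ) = log 6 + log β + log (2 / δ) := by
      rw [e1, log_mul (by positivity) (by positivity), log_mul (by norm_num) (by positivity)]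
    have e3 : log (2 * (p : ℝ) ^ 2) = log 2 + 2 * log p := by
      rw [log_mul (by norm_num) (by positivity), log_pow]
      push_cast
      ring
    have e4 : log 6 ≤ 2 := by
      rw [log_le_iff_le_exp (by norm_num)]
      have h3 : (2.7 : ℝ) ≤ exp 1 := by
        have := exp_one_gt_d9
        linarith
      have h4 : exp 2 = exp 1 * exp 1 := by rw [← exp_add]; norm_num
      rw [h4]
      nlinarith
    have e5 : log 2 ≤ 0.7 := by
      have := log_two_lt_d9
      linarith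
    rw [e3, e2]
    nlinarith
  have hchoose : (((n * p).choose K : ℕ) : ℝ) ≤ (12 / δ) ^ K := by
    have := choose_le (n * p) K (4 / δ) (by positivity) (by
      push_cast
      rw [div_mul_eq_mul_div, le_div_iff₀ h0]
      linarith)
    refine this.trans (le_of_eq ?_)
    congr 1
    ring
  have hmain : (2 * (p : ℝ) ^ 2) ^ n < β ^ K := by
    have g1 : (2 * (p : ℝ) ^ 2) ^ n = exp (n * log (2 * (p : ℝ) ^ 2)) := by
      rw [mul_comm (n : ℝ), exp_mul, exp_log (by positivity), rpow_natCast]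
    have g2 : β ^ K = exp (K * log β) := by
      rw [mul_comm (K : ℝ), exp_mul, exp_log hβpos, rpow_natCast]
    rw [g1, g2, exp_lt_exp]
    calc (n : ℝ) * log (2 * (p : ℝ) ^ 2) < n * (3 * β * log β) :=
          mul_lt_mul_of_pos_left hlp hn0
      _ = 3 * β * n * log β := by ring
      _ ≤ K * log β := mul_le_mul_of_nonneg_right hK3 (by linarith)
  have hfin : (((2 * p ^ 2) ^ n * (n * p).choose K : ℕ) : ℝ) < ((p ^ K : ℕ) : ℝ) := by
    push_cast
    calc (2 * (p : ℝ) ^ 2) ^ n * ((n * p).choose K : ℝ)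
        ≤ (2 * (p : ℝ) ^ 2) ^ n * (12 / δ) ^ K :=
          mul_le_mul_of_nonneg_left hchoose (by positivity)
      _ < β ^ K * (12 / δ) ^ K := mul_lt_mul_of_pos_right hmain (by positivity)
      _ = (p : ℝ) ^ K := by
          rw [← mul_pow]
          congr 1
          rw [hβ]
          field_simp
  exact_mod_cast hfin

/-- from the inequality between powers to the exponential bound -/
theorem exp_bound (M x b s : ℕ) (hM : 0 < M) (hx : x ≤ M) (h : M ^ b ≤ s * (M - x) ^ b) :
    exp (x * b / M) ≤ s := by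
  have hM0 : (0 : ℝ) < M := by exact_mod_cast hM
  have h1 : (M : ℝ) ^ b ≤ s * ((M : ℝ) - x) ^ b := by
    have : ((M ^ b : ℕ) : ℝ) ≤ ((s * (M - x) ^ b : ℕ) : ℝ) := by exact_mod_cast h
    rw [Nat.cast_mul, Nat.cast_pow, Nat.cast_pow, Nat.cast_sub hx] at this
    exact this
  have h2 : ((M : ℝ) - x) ^ b ≤ (M : ℝ) ^ b * exp (-(x * b / M)) := by
    have h3 : (M : ℝ) - x ≤ M * exp (-(x / M)) := by
      have h4 := add_one_le_exp (-((x : ℝ) / M))
      have h5 : (M : ℝ) * (-((x : ℝ) / M) + 1) = M - x := by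
        field_simp
        ring
      rw [← h5]
      exact mul_le_mul_of_nonneg_left h4 hM0.le
    have h6 : (0 : ℝ) ≤ (M : ℝ) - x := by
      have : (x : ℝ) ≤ M := by exact_mod_cast hx
      linarith
    calc ((M : ℝ) - x) ^ b ≤ (M * exp (-(x / M))) ^ b := pow_le_pow_left₀ h6 h3 b
      _ = (M : ℝ) ^ b * exp (-(x * b / M)) := by
          rw [mul_pow, ← exp_nat_mul]
          congr 2
          ring
  have h7 : (M : ℝ) ^ b ≤ s * ((M : ℝ) ^ b * exp (-(x * b / M))) :=
    h1.trans (mul_le_mul_of_nonneg_left h2 (Nat.cast_nonneg s))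
  have h8 : (1 : ℝ) ≤ s * exp (-(x * b / M)) := by
    have h9 : (0 : ℝ) < (M : ℝ) ^ b := by positivity
    have h10 : (M : ℝ) ^ b * 1 ≤ (M : ℝ) ^ b * (s * exp (-(x * b / M))) := by
      calc (M : ℝ) ^ b * 1 = (M : ℝ) ^ b := mul_one _
        _ ≤ s * ((M : ℝ) ^ b * exp (-(x * b / M))) := h7
        _ = _ := by ring
    exact le_of_mul_le_mul_left h10 h9
  rw [exp_neg, ← div_eq_mul_inv, le_div_iff₀ (exp_pos _), one_mul] at h8
  exact h8

end Pool.Agent.T6.H63.RW
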