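import Pool.Agent.T6.H63.RW.Main
import Pool.Agent.T6.H63.RW.Num

/-!
# The lower bound, final form
-/

open scoped Classical
open Finset

namespace Pool.Agent.T6.H63.RW

open H589DT

/-- the lower bound for the refutations of a game with a linear system of local labellings -/
theorem size_bound {n q m Q r t s l : ℕ} (G : Game n q m) (hq : 1 ≤ q) (hQ : 1 ≤ Q)
    (hn : 2 * Q ≤ n) (hl : l = n / Q) (F : Local (Fin n ⊕ Fin n) (Fin q) l)
    (hF : ∀ W ρ, F.C W ρ → ∀ L : Fin n ⊕ Fin n → Fin q, (∀ v ∈ W, L v = ρ v) → G.SatIn W L)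
    (hr : 1 ≤ r) (ht : (r * t : ℝ) ≤ 1 / (1024 * Q ^ 2 * q) * n) (R : G.Refutation r t s) :
    (2 : ℝ) ^ (1 / (1024 * Q ^ 2 * q) * n / r : ℝ) ≤ s + 1 := by
  have hq0 : (1 : ℝ) ≤ q := by exact_mod_cast hq
  have hQ0 : (1 : ℝ) ≤ Q := by exact_mod_cast hQ
  have hr0 : (1 : ℝ) ≤ r := by exact_mod_cast hr
  have hs : 1 ≤ s := by
    obtain ⟨i, -⟩ := R.last
    exact Fin.pos i
  have hs0 : (1 : ℝ) ≤ s := by exact_mod_cast hs
  have hnR : (2 * Q : ℝ) ≤ n := by exact_mod_cast hn
  have hn0 : (0 : ℝ) < n := by linarith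
  have hln : (n : ℝ) / (2 * Q) ≤ l := by
    have h1 : n < Q * (l + 1) := by
      rw [hl]
      exact Nat.lt_mul_div_succ n (by omega)
    have h2 : (n : ℝ) < Q * (l + 1) := by exact_mod_cast h1
    rw [div_le_iff₀ (by positivity)]
    nlinarith
  set c : ℝ := 1 / (1024 * Q ^ 2 * q) with hc
  have hcpos : 0 < c := by positivity
  have hcQ : c * (64 * Q) ≤ 1 := by
    rw [hc, one_div_mul_eq_div, div_le_one (by positivity)]
    nlinarith [mul_le_mul hQ0 hq0 (by norm_num) (by linarith), sq_nonneg (Q : ℝ)]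
  by_cases hcase : l < 32 * r
  · -- trivial case
    have h1 : (l : ℝ) < 32 * r := by exact_mod_cast hcase
    have h2 : (n : ℝ) / (2 * Q) < 32 * r := lt_of_le_of_lt hln h1
    rw [div_lt_iff₀ (by positivity)] at h2
    have h3 : c * n / r ≤ 1 := by
      rw [div_le_one (by linarith)]
      calc c * n ≤ c * (32 * r * (2 * Q)) := mul_le_mul_of_nonneg_left h2.le hcpos.le
        _ = (c * (64 * Q)) * r := by ring
        _ ≤ 1 * r := mul_le_mul_of_nonneg_right hcQ (by linarith)
        _ = r := one_mul _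
    calc (2 : ℝ) ^ (c * n / r) ≤ (2 : ℝ) ^ (1 : ℝ) :=
          Real.rpow_le_rpow_of_exponent_le (by norm_num) h3
      _ = 2 := Real.rpow_one 2
      _ ≤ s + 1 := by linarith
  · push Not at hcase
    set x : ℕ := l / (16 * r) with hx
    have hr16 : 0 < 16 * r := by omega
    have hx1 : 2 ≤ x := by
      rw [hx, Nat.le_div_iff_mul_le hr16]
      omega
    have hxl : x * (16 * r) ≤ l := Nat.div_mul_le_self _ _
    have hxr : (l : ℝ) / (32 * r) ≤ x := by
      have h1 : l < (16 * r) * (x + 1) := by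
        rw [hx]
        exact Nat.lt_mul_div_succ l hr16
      have h2 : (l : ℝ) < (16 * r) * (x + 1) := by exact_mod_cast h1
      have h3 : (2 : ℝ) ≤ x := by exact_mod_cast hx1
      rw [div_le_iff₀ (by positivity)]
      nlinarith
    have htx : t ≤ x := by
      have h1 : (t : ℝ) ≤ x := by
        refine le_trans ?_ hxr
        rw [le_div_iff₀ (by positivity)]
        calc (t : ℝ) * (32 * r) = 32 * (r * t) := by ring
          _ ≤ 32 * (c * n) := mul_le_mul_of_nonneg_left ht (by norm_num)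
          _ = (c * (64 * Q)) * (n / (2 * Q)) := by field_simp; ring
          _ ≤ 1 * (n / (2 * Q)) := mul_le_mul_of_nonneg_right hcQ (by positivity)
          _ ≤ l := by rw [one_mul]; exact hln
      exact_mod_cast h1
    set b : ℕ := l / 2 with hb
    have hb4 : (l : ℝ) / 4 ≤ b := by
      have h1 : l ≤ 4 * b := by omega
      have h2 : (l : ℝ) ≤ 4 * b := by exact_mod_cast h1
      linarith
    have hk : b + ((r + 1) * (x + t) + t) ≤ l := by
      have h1 : (r + 1) * (x + t) + t ≤ 5 * (r * x) := by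
        have h2 : (r + 1) * (x + t) ≤ (2 * r) * (2 * x) := Nat.mul_le_mul (by omega) (by omega)
        have h3 : t ≤ r * x := htx.trans (Nat.le_mul_of_pos_left _ hr)
        calc (r + 1) * (x + t) + t ≤ (2 * r) * (2 * x) + r * x := Nat.add_le_add h2 h3
          _ = 5 * (r * x) := by ring
      have h4 : x * (16 * r) = 16 * (r * x) := by ring
      rw [h4] at hxl
      omega
    have : Nonempty (Fin q) := ⟨⟨0, hq⟩⟩
    have key := lower (Con := G.SatIn) (r := r) (t := t) (d := x) R.dom R.step R.last F hF b hk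
    rw [Fintype.card_sum, Fintype.card_fin, Fintype.card_fin] at key
    have hln' : l ≤ n := by
      rw [hl]
      exact Nat.div_le_self _ _
    have hM : 0 < (n + n) * q := by
      have : 0 < n := by exact_mod_cast hn0
      positivity
    have hxM : x ≤ (n + n) * q := by
      have h1 : x ≤ l := by
        refine le_trans ?_ hxl
        exact Nat.le_mul_of_pos_right _ hr16
      calc x ≤ n := h1.trans hln'
        _ ≤ (n + n) * 1 := by omega
        _ ≤ (n + n) * q := Nat.mul_le_mul_left _ hq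
    have h5 := exp_bound ((n + n) * q) x b s hM hxM key
    have h6 : c * n / r ≤ x * b / (((n + n) * q : ℕ) : ℝ) := by
      push_cast
      rw [le_div_iff₀ (by positivity)]
      have h7 : (l : ℝ) / (32 * r) * (l / 4) ≤ x * b :=
        mul_le_mul hxr hb4 (by positivity) (by positivity)
      have h8 : (n : ℝ) / (2 * Q) / (32 * r) * (n / (2 * Q) / 4) ≤
          (l : ℝ) / (32 * r) * (l / 4) := by
        gcongr
      refine le_trans (le_of_eq ?_) (h8.trans h7)
      rw [hc]
      field_simp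
      ring
    calc (2 : ℝ) ^ (c * n / r) ≤ Real.exp (c * n / r) := by
          rw [Real.rpow_def_of_pos (by norm_num)]
          apply Real.exp_le_exp.2
          have h9 : Real.log 2 ≤ 1 := by
            have := Real.log_two_lt_d9
            linarith
          have h10 : 0 ≤ c * n / r := by positivity
          nlinarith
      _ ≤ Real.exp (x * b / (((n + n) * q : ℕ) : ℝ)) := Real.exp_le_exp.2 h6
      _ ≤ s := h5
      _ ≤ s + 1 := by linarith

/-- the lower bound for the width -/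
theorem width_bound {n q m r t s l : ℕ} (G : Game n q m) (hq : 1 ≤ q)
    (F : Local (Fin n ⊕ Fin n) (Fin q) l)
    (hF : ∀ W ρ, F.C W ρ → ∀ L : Fin n ⊕ Fin n → Fin q, (∀ v ∈ W, L v = ρ v) → G.SatIn W L)
    (R : G.Refutation r t s) : ∃ i, l < (r + 1) * ((R.line i).width + t) + t := by
  by_contra hc
  push Not at hc
  obtain ⟨i0, -⟩ := R.last
  obtain ⟨i, -, hi⟩ := Finset.exists_max_image (univ : Finset (Fin s))
    (fun i => (R.line i).width) ⟨i0, mem_univ _⟩
  have : Nonempty (Fin q) := ⟨⟨0, hq⟩⟩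
  refine core (Con := G.SatIn) (r := r) (t := t) (d := (R.line i).width) R.dom R.step R.last 0 _
    (fun _ => univ) l F le_rfl (fun _ => univ_nonempty) (fun _ _ _ _ _ => mem_univ _) hF
    (by rw [Nat.zero_add]; exact hc i) ?_
  rw [pow_zero, pow_zero, mul_one, Nat.lt_one_iff, card_eq_zero]
  apply filter_eq_empty_iff.2
  intro j _ hj
  have h1 := hj.2
  have h2 := supp_le (R.line j) fun _ => univ
  have h3 := hi j (mem_univ j)
  omega

/-- for every `δ` there are 2-to-1 games with value at most `δ`, alphabet of size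
`O((1 / δ) log (1 / δ))` and linearly many edges, all refutations of which have exponentially many
lines -/
theorem main (δ : ℝ) (h0 : 0 < δ) (h1 : δ < 1) : ∃ q : ℕ, 1 ≤ q ∧
    (q : ℝ) ≤ 300 / δ * Real.log (2 / δ) ∧ ∃ c : ℝ, 0 < c ∧ ∃ N0 : ℕ, ∀ N : ℕ, N0 ≤ N →
    ∃ m : ℕ, 1 ≤ m ∧ ∃ G : Game N q m,
      (∀ u, 2 * (univ.filter fun e => G.src e = u).card ≤ q) ∧ G.ValueLe δ ∧
      ∀ (r t s : ℕ) (R : G.Refutation r t s), 1 ≤ r →
        ((r * t : ℝ) ≤ c * N → (2 : ℝ) ^ (c * N / r) ≤ s + 1) ∧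
        ∃ i, c * N < (r + 1) * ((R.line i).width + t) + t := by
  obtain ⟨p, hp, hp1, hp2⟩ := exists_prime δ h0 h1
  obtain ⟨Q, n0, hQ, H⟩ := exists_game p hp
  have hp2' : 2 ≤ p := hp.two_le
  refine ⟨2 * p, by omega, hp1, 1 / (1024 * Q ^ 2 * (2 * p : ℕ)), by positivity,
    max n0 (max (2 * Q) ⌈4 / δ⌉₊), fun n hn => ?_⟩
  have hn1 : n0 ≤ n := (le_max_left _ _).trans hn
  have hn2 : 2 * Q ≤ n := ((le_max_left _ _).trans (le_max_right _ _)).trans hn
  have hn3 : ⌈4 / δ⌉₊ ≤ n := ((le_max_right _ _).trans (le_max_right _ _)).trans hn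
  have hn4 : 4 / δ ≤ n := Nat.ceil_le.1 hn3
  have hn5 : 4 ≤ n * δ := by rwa [div_le_iff₀ h0] at hn4
  have hpR : (2 : ℝ) ≤ p := by exact_mod_cast hp2'
  set K : ℕ := ⌊δ * p * n / 2⌋₊ with hK
  have hK1 : δ * p * n / 4 ≤ K := by
    have h2 : δ * p * n / 2 < K + 1 := Nat.lt_floor_add_one _
    nlinarith
  have hK2 : (K : ℝ) ≤ δ * p * n / 2 := Nat.floor_le (by positivity)
  obtain ⟨m, -, hm2, G, hdeg, hG, F, hF⟩ := H n hn1 K
    (union_bound δ h0 h1 p n K hp (by omega) hp2 hK1)
  have hm3 : (p * n : ℝ) ≤ 2 * m := by exact_mod_cast hm2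
  refine ⟨m, ?_, G, fun u => Nat.mul_le_mul_left 2 (hdeg u), ?_, ?_⟩
  · have : 2 * 1 ≤ p * n := Nat.mul_le_mul hp2' (by omega)
    omega
  · intro L
    have h2 : ((univ.filter fun e => G.Sat L e).card : ℝ) ≤ K := by
      exact_mod_cast (hG L).le
    calc ((univ.filter fun e => G.Sat L e).card : ℝ) ≤ K := h2
      _ ≤ δ * p * n / 2 := hK2
      _ = δ * (p * n) / 2 := by ring
      _ ≤ δ * (2 * m) / 2 := by gcongr
      _ = δ * m := by ring
  · intro r t s R hr
    refine ⟨fun ht => size_bound G (by omega) hQ hn2 rfl F hF hr ht R, ?_⟩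
    obtain ⟨i, hi⟩ := width_bound G (by omega) F hF R
    refine ⟨i, ?_⟩
    have h2 : ((n / Q : ℕ) : ℝ) < (r + 1) * ((R.line i).width + t) + t := by exact_mod_cast hi
    refine lt_of_le_of_lt ?_ h2
    have h3 : n < Q * (n / Q + 1) := Nat.lt_mul_div_succ n (by omega)
    have h4 : (n : ℝ) < Q * ((n / Q : ℕ) + 1) := by exact_mod_cast h3
    have h5 : (2 * Q : ℝ) ≤ n := by exact_mod_cast hn2
    have hQ0 : (1 : ℝ) ≤ Q := by exact_mod_cast hQ
    have h6 : 1 / (1024 * (Q : ℝ) ^ 2 * (2 * p : ℕ)) ≤ 1 / (2 * Q) := by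
      apply one_div_le_one_div_of_le (by positivity)
      push_cast
      nlinarith [mul_le_mul hQ0 hpR (by norm_num) (by linarith), mul_pos (by linarith : (0 : ℝ) < Q)
        (by linarith : (0 : ℝ) < p)]
    calc 1 / (1024 * (Q : ℝ) ^ 2 * (2 * p : ℕ)) * n ≤ 1 / (2 * Q) * n :=
          mul_le_mul_of_nonneg_right h6 (by positivity)
      _ = n / (2 * Q) := by ring
      _ ≤ ((n / Q : ℕ) : ℝ) := by
          rw [div_le_iff₀ (by positivity)]
          nlinarith

end Pool.Agent.T6.H63.RW
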