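import Pool.Agent.H589R3.DT.Defs

/-!
# From locally consistent labellings to lower bounds for the number of lines of refutations
-/

open scoped Classical
open Finset

set_option linter.unusedSectionVars false

namespace Pool.Agent.T6.H63.RW

open H589DT (Local)

/-- a line of a refutation: the disjunction of a clause, whose literals are the conditions
`L v ∈ un v` for all vertices `v`, and an arbitrary condition `pred` on the labels of `dom` -/
structure Line (V Λ : Type) where
  /-- the clause -/
  un : V → Finset Λ
  /-- the vertices on which the condition depends -/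
  dom : Finset V
  /-- the condition -/
  pred : (V → Λ) → Prop
  loc : ∀ L L' : V → Λ, (∀ v ∈ dom, L v = L' v) → pred L → pred L'

variable {V Λ : Type}

/-- the labelling satisfies the line -/
def Line.Holds (l : Line V Λ) (L : V → Λ) : Prop := (∃ v, L v ∈ l.un v) ∨ l.pred L

variable [Fintype V] [Fintype Λ]

/-- the clause is not satisfied by the domains -/
def Open (l : Line V Λ) (D : V → Finset Λ) : Prop := ∀ v, ¬ D v ⊆ l.un v

/-- the vertices on which the clause still depends -/
noncomputable def supp (l : Line V Λ) (D : V → Finset Λ) : Finset V :=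
  univ.filter fun v => (l.un v ∩ D v).Nonempty

/-- the number of vertices on which the clause of the line depends -/
noncomputable def Line.width (l : Line V Λ) : ℕ := (univ.filter fun v => (l.un v).Nonempty).card

theorem supp_le (l : Line V Λ) (D : V → Finset Λ) : (supp l D).card ≤ l.width := by
  apply card_le_card
  intro v hv
  obtain ⟨a, ha⟩ := (mem_filter.1 hv).2
  exact mem_filter.2 ⟨mem_univ _, a, (mem_inter.1 ha).1⟩

/-- a fat line -/
def Fat (d : ℕ) (l : Line V Λ) (D : V → Finset Λ) : Prop := Open l D ∧ d < (supp l D).card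

theorem mem_supp {l : Line V Λ} {D : V → Finset Λ} {v : V} :
    v ∈ supp l D ↔ (l.un v ∩ D v).Nonempty := by
  simp [supp]

theorem open_mono {l : Line V Λ} {D D' : V → Finset Λ} (h : ∀ v, D' v ⊆ D v) (ho : Open l D') :
    Open l D := fun v hv => ho v ((h v).trans hv)

theorem supp_mono {l : Line V Λ} {D D' : V → Finset Λ} (h : ∀ v, D' v ⊆ D v) :
    supp l D' ⊆ supp l D := by
  intro v hv
  rw [mem_supp] at hv ⊢
  obtain ⟨a, ha⟩ := hv
  rw [mem_inter] at ha
  exact ⟨a, mem_inter.2 ⟨ha.1, h v ha.2⟩⟩

theorem fat_mono {d : ℕ} {l : Line V Λ} {D D' : V → Finset Λ} (h : ∀ v, D' v ⊆ D v)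
    (hf : Fat d l D') : Fat d l D :=
  ⟨open_mono h hf.1, hf.2.trans_le (card_le_card (supp_mono h))⟩

/-- the rule: the line `i` follows from at most `r` earlier lines and from the constraints inside
a set of at most `t` vertices -/
def Step (Con : Finset V → (V → Λ) → Prop) (r t : ℕ) {s : ℕ} (line : Fin s → Line V Λ)
    (i : Fin s) : Prop :=
  ∃ P : Finset (Fin s), P.card ≤ r ∧ (∀ j ∈ P, j < i) ∧ ∃ W : Finset V, W.card ≤ t ∧
    ∀ L : V → Λ, Con W L → (∀ j ∈ P, (line j).Holds L) → (line i).Holds L

section

variable {Con : Finset V → (V → Λ) → Prop} {r t s d : ℕ} {line : Fin s → Line V Λ}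

/-- thin refutations are impossible -/
theorem base {k : ℕ} (D : V → Finset Λ) (hD : ∀ v, (D v).Nonempty) (F : Local V Λ k)
    (hFD : ∀ S ρ, F.C S ρ → ∀ v ∈ S, ρ v ∈ D v)
    (hcon : ∀ W ρ, F.C W ρ → ∀ L : V → Λ, (∀ v ∈ W, L v = ρ v) → Con W L)
    (hk : (r + 1) * (d + t) + t ≤ k) (hthin : ∀ i, ¬ Fat d (line i) D)
    (hdom : ∀ i, (line i).dom.card ≤ t) (step : ∀ i, Step Con r t line i) (i : Fin s) :
    ∀ ρ, F.C (supp (line i) D ∪ (line i).dom) ρ → Open (line i) D →
      (∀ v ∈ supp (line i) D, ρ v ∉ (line i).un v) → ¬ (line i).pred ρ → False := by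
  induction i using WellFoundedLT.induction with
  | ind i ih =>
  intro ρ hρ ho hun hpr
  obtain ⟨P, hP, hlt, W, hW, himp⟩ := step i
  have hth : ∀ j, Open (line j) D → (supp (line j) D).card ≤ d := by
    intro j hj
    by_contra hc
    exact hthin j ⟨hj, by omega⟩
  have hS : ∀ j, Open (line j) D → (supp (line j) D ∪ (line j).dom).card ≤ d + t := fun j hj =>
    (card_union_le _ _).trans (Nat.add_le_add (hth j hj) (hdom j))
  set T : Finset V := (supp (line i) D ∪ (line i).dom) ∪
    ((P.filter fun j => Open (line j) D).biUnion fun j => supp (line j) D ∪ (line j).dom) ∪ W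
    with hT
  have hTc : T.card ≤ k := by
    have h1 : ((P.filter fun j => Open (line j) D).biUnion fun j =>
        supp (line j) D ∪ (line j).dom).card ≤ r * (d + t) := by
      refine (card_biUnion_le_card_mul _ _ (d + t) fun j hj => hS j (mem_filter.1 hj).2).trans ?_
      exact Nat.mul_le_mul_right _ ((card_filter_le _ _).trans hP)
    have h2 := hS i ho
    have h3 := card_union_le ((supp (line i) D ∪ (line i).dom) ∪
      ((P.filter fun j => Open (line j) D).biUnion fun j => supp (line j) D ∪ (line j).dom)) W
    have h4 := card_union_le (supp (line i) D ∪ (line i).dom)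
      ((P.filter fun j => Open (line j) D).biUnion fun j => supp (line j) D ∪ (line j).dom)
    have h5 : (r + 1) * (d + t) = r * (d + t) + (d + t) := by ring
    rw [← hT] at h3
    omega
  obtain ⟨ρ', hρ', hC⟩ := F.ext (supp (line i) D ∪ (line i).dom) T ρ
    (subset_union_left.trans subset_union_left) hTc hρ
  set L : V → Λ := fun v => if v ∈ T then ρ' v else (hD v).choose with hL
  have hLT : ∀ v ∈ T, L v = ρ' v := fun v hv => by rw [hL]; simp only [hv, if_true]
  have hLD : ∀ v, L v ∈ D v := by
    intro v
    by_cases hv : v ∈ T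
    · rw [hLT v hv]
      exact hFD T ρ' hC v hv
    · rw [hL]
      simp only [hv, if_false]
      exact (hD v).choose_spec
  have hLW : Con W L := hcon W ρ' (F.mono W T ρ' subset_union_right hC) L
    fun v hv => hLT v (mem_union_right _ hv)
  have hnot : ¬ (line i).Holds L := by
    rintro (⟨v, hv⟩ | h)
    · have h1 : v ∈ supp (line i) D := mem_supp.2 ⟨L v, mem_inter.2 ⟨hv, hLD v⟩⟩
      have h2 : v ∈ supp (line i) D ∪ (line i).dom := mem_union_left _ h1
      have h3 : v ∈ T := mem_union_left _ (mem_union_left _ h2)
      rw [hLT v h3, hρ' v h2] at hv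
      exact hun v h1 hv
    · apply hpr
      refine (line i).loc L ρ (fun v hv => ?_) h
      have h2 : v ∈ supp (line i) D ∪ (line i).dom := mem_union_right _ hv
      have h3 : v ∈ T := mem_union_left _ (mem_union_left _ h2)
      rw [hLT v h3, hρ' v h2]
  have hex : ∃ j ∈ P, ¬ (line j).Holds L := by
    by_contra hc
    push Not at hc
    exact hnot (himp L hLW hc)
  obtain ⟨j, hj, hnj⟩ := hex
  have hoj : Open (line j) D := fun v hv => hnj (Or.inl ⟨v, hv (hLD v)⟩)
  have hsub : supp (line j) D ∪ (line j).dom ⊆ T := by
    intro v hv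
    refine mem_union_left _ (mem_union_right _ (mem_biUnion.2 ⟨j, mem_filter.2 ⟨hj, hoj⟩, hv⟩))
  refine ih j (hlt j hj) ρ' (F.mono _ T ρ' hsub hC) hoj ?_ ?_
  · intro v hv h
    apply hnj
    refine Or.inl ⟨v, ?_⟩
    rw [hLT v (hsub (mem_union_left _ hv))]
    exact h
  · intro h
    apply hnj
    refine Or.inr ((line j).loc ρ' L (fun v hv => ?_) h)
    exact (hLT v (hsub (mem_union_right _ hv))).symm

/-- averaging: some literal satisfies many fat lines -/
theorem exists_pair (D : V → Finset Λ) (Ft : Finset (Fin s))
    (hFt : ∀ i ∈ Ft, Fat d (line i) D) (hM : 0 < Fintype.card V * Fintype.card Λ) :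
    ∃ v : V, ∃ a : Λ, d * Ft.card ≤ Fintype.card V * Fintype.card Λ *
      (Ft.filter fun i => a ∈ (line i).un v ∧ a ∈ D v).card := by
  by_contra hc
  push Not at hc
  have h1 : ∑ i ∈ Ft, d ≤ ∑ i ∈ Ft,
      (univ.filter fun x : V × Λ => x.2 ∈ (line i).un x.1 ∧ x.2 ∈ D x.1).card := by
    refine sum_le_sum fun i hi => ?_
    refine (hFt i hi).2.le.trans ?_
    have h2 : ∀ v ∈ supp (line i) D, ∃ a, a ∈ (line i).un v ∧ a ∈ D v := by
      intro v hv
      obtain ⟨a, ha⟩ := mem_supp.1 hv
      exact ⟨a, mem_inter.1 ha⟩
    have : Nonempty Λ := by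
      have h3 : 0 < Fintype.card Λ := Nat.pos_of_mul_pos_left hM
      exact Fintype.card_pos_iff.1 h3
    choose! f hf using h2
    refine card_le_card_of_injOn (fun v => (v, f v)) ?_ ?_
    · intro v hv
      exact mem_coe.2 (mem_filter.2 ⟨mem_univ _, hf v (mem_coe.1 hv)⟩)
    · intro v _ w _ h
      exact (Prod.mk.inj h).1
  have h2 : ∑ i ∈ Ft, (univ.filter fun x : V × Λ => x.2 ∈ (line i).un x.1 ∧ x.2 ∈ D x.1).card =
      ∑ x : V × Λ, (Ft.filter fun i => x.2 ∈ (line i).un x.1 ∧ x.2 ∈ D x.1).card := by
    simp only [card_filter]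
    exact sum_comm
  rw [h2, sum_const, smul_eq_mul] at h1
  have h3 : (Fintype.card V * Fintype.card Λ) * ∑ x : V × Λ,
      (Ft.filter fun i => x.2 ∈ (line i).un x.1 ∧ x.2 ∈ D x.1).card <
      (Fintype.card V * Fintype.card Λ) * (d * Ft.card) := by
    rw [mul_sum]
    calc ∑ x : V × Λ, (Fintype.card V * Fintype.card Λ) *
          (Ft.filter fun i => x.2 ∈ (line i).un x.1 ∧ x.2 ∈ D x.1).card
        < ∑ _x : V × Λ, d * Ft.card := by
          refine sum_lt_sum_of_nonempty ?_ fun x _ => hc x.1 x.2
          rw [← card_pos, card_univ, Fintype.card_prod]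
          exact hM
      _ = _ := by rw [sum_const, smul_eq_mul, card_univ, Fintype.card_prod]
  have h4 := lt_of_mul_lt_mul_left h3 (Nat.zero_le _)
  rw [mul_comm d] at h4
  omega

/-- the restriction of the system to the labellings with `v ↦ a` -/
def fix {k : ℕ} (F : Local V Λ k) (v : V) (a : Λ) (h : ∃ ρ, F.C {v} ρ ∧ ρ v = a) :
    Local V Λ (k - 1) where
  C S ρ := ∃ ρ' : V → Λ, (∀ u ∈ S, ρ' u = ρ u) ∧ ρ' v = a ∧ F.C (insert v S) ρ'
  empty := by
    obtain ⟨ρ, h1, h2⟩ := h
    exact ⟨ρ, ρ, fun _ _ => rfl, h2, by simpa using h1⟩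
  mono := by
    rintro S T ρ hST ⟨ρ', h1, h2, h3⟩
    exact ⟨ρ', fun u hu => h1 u (hST hu), h2, F.mono _ _ _ (insert_subset_insert v hST) h3⟩
  ext := by
    rintro S T ρ hST hT ⟨ρ', h1, h2, h3⟩
    by_cases hk : (insert v T).card ≤ k
    · obtain ⟨ρ'', g1, g2⟩ := F.ext _ _ ρ' (insert_subset_insert v hST) hk h3
      refine ⟨ρ'', fun u hu => ?_, ρ'', fun _ _ => rfl, ?_, g2⟩
      · rw [g1 u (mem_insert_of_mem hu), h1 u hu]
      · rw [g1 v (mem_insert_self _ _), h2]
    · have h4 := card_insert_le v T
      have h5 : k = 0 := by omega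
      have h6 : T = ∅ := by
        rw [← card_eq_zero]
        omega
      have h7 : S = ∅ := by
        rw [← subset_empty, ← h6]
        exact hST
      subst h6 h7
      exact ⟨ρ', fun u hu => absurd hu (notMem_empty _), ρ', fun _ _ => rfl, h2, h3⟩

/-- the induction -/
theorem core (hdom : ∀ i, (line i).dom.card ≤ t) (step : ∀ i, Step Con r t line i)
    (hlast : ∃ i, (∀ v, (line i).un v = ∅) ∧ ∀ L, ¬ (line i).pred L) :
    ∀ (b m : ℕ) (D : V → Finset Λ) (k : ℕ) (F : Local V Λ k), (∑ v, (D v).card ≤ m) →
    (∀ v, (D v).Nonempty) → (∀ S ρ, F.C S ρ → ∀ v ∈ S, ρ v ∈ D v) →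
    (∀ W ρ, F.C W ρ → ∀ L : V → Λ, (∀ v ∈ W, L v = ρ v) → Con W L) →
    b + ((r + 1) * (d + t) + t) ≤ k →
    ((univ : Finset (Fin s)).filter fun i => Fat d (line i) D).card *
      (Fintype.card V * Fintype.card Λ - d) ^ b < (Fintype.card V * Fintype.card Λ) ^ b →
    False := by
  have fin : ∀ (D : V → Finset Λ) (k : ℕ) (F : Local V Λ k), (∀ v, (D v).Nonempty) →
      (∀ S ρ, F.C S ρ → ∀ v ∈ S, ρ v ∈ D v) →
      (∀ W ρ, F.C W ρ → ∀ L : V → Λ, (∀ v ∈ W, L v = ρ v) → Con W L) →
      (r + 1) * (d + t) + t ≤ k →
      ((univ : Finset (Fin s)).filter fun i => Fat d (line i) D).card = 0 → False := by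
    intro D k F hD hFD hcon hk h0
    obtain ⟨i, hi1, hi2⟩ := hlast
    have hthin : ∀ i, ¬ Fat d (line i) D := by
      intro i hi
      rw [card_eq_zero, filter_eq_empty_iff] at h0
      exact h0 (mem_univ i) hi
    have hs : supp (line i) D = ∅ := by
      unfold supp
      apply filter_eq_empty_iff.2
      intro v _ h
      rw [hi1 v, empty_inter] at h
      exact not_nonempty_empty h
    obtain ⟨ρ, hρ⟩ := F.empty
    have hd : (supp (line i) D ∪ (line i).dom).card ≤ k := by
      rw [hs, empty_union]
      have := hdom i
      nlinarith [Nat.zero_le ((r + 1) * (d + t))]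
    obtain ⟨ρ', -, h2⟩ := F.ext ∅ (supp (line i) D ∪ (line i).dom) ρ (empty_subset _) hd hρ
    refine base D hD F hFD hcon hk hthin hdom step i ρ' h2 ?_ ?_ (hi2 ρ')
    · intro v hv
      rw [hi1 v] at hv
      obtain ⟨a, ha⟩ := hD v
      exact notMem_empty _ (hv ha)
    · intro v hv
      rw [hs] at hv
      exact absurd hv (notMem_empty _)
  intro b
  induction b with
  | zero =>
    intro m D k F _ hD hFD hcon hk hf
    refine fin D k F hD hFD hcon (by omega) ?_
    simpa using hf
  | succ b ihb =>
    intro m
    induction m with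
    | zero =>
      intro D k F hm hD hFD hcon hk hf
      have hV : IsEmpty V := by
        by_contra hne
        rw [not_isEmpty_iff] at hne
        obtain ⟨v⟩ := hne
        have h1 : (D v).card ≤ ∑ v, (D v).card :=
          single_le_sum (f := fun v => (D v).card) (fun _ _ => Nat.zero_le _) (mem_univ v)
        have h2 := card_pos.2 (hD v)
        omega
      rw [Fintype.card_eq_zero, Nat.zero_mul, Nat.zero_pow (Nat.succ_pos _)] at hf
      exact absurd hf (Nat.not_lt_zero _)
    | succ m ihm =>
      intro D k F hm hD hFD hcon hk hf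
      set M := Fintype.card V * Fintype.card Λ with hM
      set Ft : Finset (Fin s) := univ.filter fun i => Fat d (line i) D with hFt
      rcases Nat.eq_zero_or_pos Ft.card with h0 | hpos
      · exact fin D k F hD hFD hcon (by omega) h0
      have hMpos : 0 < M := by
        rcases Nat.eq_zero_or_pos M with h | h
        · rw [h, Nat.zero_pow (Nat.succ_pos _)] at hf
          exact absurd hf (Nat.not_lt_zero _)
        · exact h
      obtain ⟨v, a, hva⟩ := exists_pair (d := d) D Ft (fun i hi => (mem_filter.1 hi).2) hMpos
      by_cases hca : ∃ ρ, F.C {v} ρ ∧ ρ v = a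
      · -- the label `a` is possible
        set D' : V → Finset Λ := Function.update D v {a} with hD'
        have haD : a ∈ D v := by
          obtain ⟨ρ, h1, h2⟩ := hca
          rw [← h2]
          exact hFD _ ρ h1 v (mem_singleton_self v)
        have hle : ∀ u, D' u ⊆ D u := by
          intro u
          by_cases hu : u = v
          · subst hu
            rw [hD', Function.update_self]
            exact singleton_subset_iff.2 haD
          · rw [hD', Function.update_of_ne hu]
        refine ihb (∑ u, (D' u).card) D' (k - 1) (fix F v a hca) le_rfl ?_ ?_ ?_ (by omega) ?_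
        · intro u
          by_cases hu : u = v
          · subst hu
            rw [hD', Function.update_self]
            exact singleton_nonempty a
          · rw [hD', Function.update_of_ne hu]
            exact hD u
        · rintro S ρ ⟨ρ', h1, h2, h3⟩ u hu
          rw [← h1 u hu]
          by_cases huv : u = v
          · subst huv
            rw [hD', Function.update_self, h2]
            exact mem_singleton_self a
          · rw [hD', Function.update_of_ne huv]
            exact hFD _ ρ' h3 u (mem_insert_of_mem hu)
        · rintro W ρ ⟨ρ', h1, h2, h3⟩ L hL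
          refine hcon W ρ' (F.mono _ _ _ (subset_insert v W) h3) L fun u hu => ?_
          rw [hL u hu, h1 u hu]
        · -- the number of fat lines
          set Ft' : Finset (Fin s) := univ.filter fun i => Fat d (line i) D' with hFt'
          have hsub : Ft' ⊆ Ft \ (Ft.filter fun i => a ∈ (line i).un v ∧ a ∈ D v) := by
            intro i hi
            have h1 := (mem_filter.1 hi).2
            rw [mem_sdiff]
            refine ⟨mem_filter.2 ⟨mem_univ _, fat_mono hle h1⟩, fun h2 => ?_⟩
            have h3 := (mem_filter.1 h2).2.1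
            apply h1.1 v
            rw [hD', Function.update_self]
            exact singleton_subset_iff.2 h3
          have h1 := card_le_card hsub
          rw [card_sdiff_of_subset (filter_subset _ _)] at h1
          have h2 : Ft'.card * M ≤ Ft.card * (M - d) := by
            have h3 := card_filter_le Ft (fun i => a ∈ (line i).un v ∧ a ∈ D v)
            set c := (Ft.filter fun i => a ∈ (line i).un v ∧ a ∈ D v).card with hc
            have h4 : Ft'.card + c ≤ Ft.card := by omega
            have h5 : Ft'.card * M + d * Ft.card ≤ Ft.card * M := by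
              calc Ft'.card * M + d * Ft.card ≤ Ft'.card * M + M * c := by
                    exact Nat.add_le_add_left hva _
                _ = (Ft'.card + c) * M := by ring
                _ ≤ Ft.card * M := Nat.mul_le_mul_right _ h4
            have h6 : d ≤ M := by
              by_contra hcon'
              push Not at hcon'
              nlinarith
            zify [h6] at h5 ⊢
            nlinarith
          refine lt_of_mul_lt_mul_left (a := M) ?_ (Nat.zero_le _)
          calc M * (Ft'.card * (M - d) ^ b) = (Ft'.card * M) * (M - d) ^ b := by ring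
            _ ≤ (Ft.card * (M - d)) * (M - d) ^ b := Nat.mul_le_mul_right _ h2
            _ = Ft.card * (M - d) ^ (b + 1) := by rw [pow_succ]; ring
            _ < M ^ (b + 1) := hf
            _ = M * M ^ b := by rw [pow_succ]; ring
      · -- the label `a` is impossible
        have hne : ∀ S ρ, F.C S ρ → v ∈ S → ρ v ≠ a := fun S ρ h1 h2 h3 =>
          hca ⟨ρ, F.mono _ _ _ (singleton_subset_iff.2 h2) h1, h3⟩
        have haD : 0 < (Ft.filter fun i => a ∈ (line i).un v ∧ a ∈ D v).card ∨ d = 0 := by
          by_contra hcc
          push Not at hcc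
          have h1 : (Ft.filter fun i => a ∈ (line i).un v ∧ a ∈ D v).card = 0 := by omega
          rw [h1, mul_zero] at hva
          have h2 : 0 < d * Ft.card := Nat.mul_pos (by omega) hpos
          omega
        by_cases haD' : a ∈ D v
        · set D' : V → Finset Λ := Function.update D v ((D v).erase a) with hD'
          have hle : ∀ u, D' u ⊆ D u := by
            intro u
            by_cases hu : u = v
            · subst hu
              rw [hD', Function.update_self]
              exact erase_subset _ _
            · rw [hD', Function.update_of_ne hu]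
          refine ihm D' k F ?_ ?_ ?_ hcon hk ?_
          · have h1 : ∑ u, (D' u).card < ∑ u, (D u).card := by
              refine sum_lt_sum (fun u _ => card_le_card (hle u)) ⟨v, mem_univ v, ?_⟩
              rw [hD', Function.update_self]
              exact card_erase_lt_of_mem haD'
            omega
          · intro u
            by_cases hu : u = v
            · subst hu
              rw [hD', Function.update_self]
              obtain ⟨ρ, hρ⟩ := F.empty
              obtain ⟨ρ', -, h2⟩ := F.ext ∅ {u} ρ (empty_subset _) (by simp; omega) hρ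
              exact ⟨ρ' u, mem_erase.2 ⟨hne _ ρ' h2 (mem_singleton_self u),
                hFD _ ρ' h2 u (mem_singleton_self u)⟩⟩
            · rw [hD', Function.update_of_ne hu]
              exact hD u
          · intro S ρ hC u hu
            by_cases huv : u = v
            · subst huv
              rw [hD', Function.update_self]
              exact mem_erase.2 ⟨hne S ρ hC hu, hFD S ρ hC u hu⟩
            · rw [hD', Function.update_of_ne huv]
              exact hFD S ρ hC u hu
          · refine lt_of_le_of_lt (Nat.mul_le_mul_right _ (card_le_card ?_)) hf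
            intro i hi
            exact mem_filter.2 ⟨mem_univ _, fat_mono hle (mem_filter.1 hi).2⟩
        · -- then the count is zero, so `d = 0`
          have h1 : (Ft.filter fun i => a ∈ (line i).un v ∧ a ∈ D v).card = 0 := by
            rw [card_eq_zero]
            apply filter_eq_empty_iff.2
            intro i _ h
            exact haD' h.2
          have hd0 : d = 0 := by
            rcases haD with h | h
            · omega
            · exact h
          rw [hd0, Nat.sub_zero] at hf
          have h2 : 1 * M ^ (b + 1) ≤ Ft.card * M ^ (b + 1) := Nat.mul_le_mul_right _ hpos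
          omega

/-- the lower bound -/
theorem lower (hdom : ∀ i, (line i).dom.card ≤ t) (step : ∀ i, Step Con r t line i)
    (hlast : ∃ i, (∀ v, (line i).un v = ∅) ∧ ∀ L, ¬ (line i).pred L) {k : ℕ} [Nonempty Λ]
    (F : Local V Λ k)
    (hcon : ∀ W ρ, F.C W ρ → ∀ L : V → Λ, (∀ v ∈ W, L v = ρ v) → Con W L) (b : ℕ)
    (hk : b + ((r + 1) * (d + t) + t) ≤ k) :
    (Fintype.card V * Fintype.card Λ) ^ b ≤ s * (Fintype.card V * Fintype.card Λ - d) ^ b := by
  by_contra hc
  push Not at hc
  refine core (d := d) hdom step hlast b _ (fun _ => univ) k F le_rfl (fun _ => univ_nonempty)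
    (fun _ _ _ _ _ => mem_univ _) hcon hk (lt_of_le_of_lt (Nat.mul_le_mul_right _ ?_) hc)
  exact (card_le_univ _).trans (by simp)

end

end Pool.Agent.T6.H63.RW
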