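import Pool.Agent.H589R3.DT.Main
import Pool.Agent.T6.H63.RW.Ref
import Pool.Agent.T6.H63.RW.Lin

/-!
# 2-to-1 games whose refutations have exponentially many lines
-/

open scoped Classical
open Finset

namespace Pool.Agent.T6.H63.RW

open H589DT

/-- a 2-to-1 game with vertex sets of size `N`, alphabet `[q]` on both sides, and `m` edges
(edges may be repeated); the fibers of the constraints have at most two elements -/
structure Game (N q m : ℕ) where
  /-- the end in `U` -/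
  src : Fin m → Fin N
  /-- the end in `V` -/
  tgt : Fin m → Fin N
  /-- the constraint -/
  map : Fin m → Fin q → Fin q
  fib : ∀ e b, (univ.filter fun a => map e a = b).card ≤ 2

variable {N q m : ℕ}

/-- the labelling `L` (of `U`: `Sum.inl`, and of `V`: `Sum.inr`) satisfies the edge `e` -/
def Game.Sat (G : Game N q m) (L : Fin N ⊕ Fin N → Fin q) (e : Fin m) : Prop :=
  G.map e (L (Sum.inl (G.src e))) = L (Sum.inr (G.tgt e))

/-- every labelling satisfies at most the fraction `δ` of the edges -/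
def Game.ValueLe (G : Game N q m) (δ : ℝ) : Prop :=
  ∀ L, ((univ.filter fun e => G.Sat L e).card : ℝ) ≤ δ * m

/-- the labelling satisfies all constraints inside the set `W` -/
def Game.SatIn (G : Game N q m) (W : Finset (Fin N ⊕ Fin N)) (L : Fin N ⊕ Fin N → Fin q) : Prop :=
  ∀ e, Sum.inl (G.src e) ∈ W → Sum.inr (G.tgt e) ∈ W → G.Sat L e

/-- a refutation with `s` lines of the statement that some labelling satisfies all edges -/
structure Game.Refutation (G : Game N q m) (r t s : ℕ) where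
  /-- the lines -/
  line : Fin s → Line (Fin N ⊕ Fin N) (Fin q)
  dom : ∀ i, (line i).dom.card ≤ t
  step : ∀ i, Step G.SatIn r t line i
  last : ∃ i, (∀ v, (line i).un v = ∅) ∧ ∀ L, ¬ (line i).pred L

section

variable {n p : ℕ}

/-- the code of the labels -/
noncomputable def code (p : ℕ) [NeZero p] : ZMod p × Fin 2 ≃ Fin (2 * p) :=
  Fintype.equivFinOfCardEq (by rw [Fintype.card_prod, ZMod.card, Fintype.card_fin, mul_comm])

/-- the game with degrees `D` -/
noncomputable def mkGame [NeZero p] {D : ℕ} (φ : Fin n → Fin D → Fin n) (B : Finset (Fin n))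
    (σ : Fin n → Fin D → ZMod p) (ε : Fin m ≃ {e : Fin n × Fin D // e.1 ∉ B}) :
    Game n (2 * p) m where
  src e := (ε e).1.1
  tgt e := φ (ε e).1.1 (ε e).1.2
  map e a := code p (((code p).symm a).1 - (((ε e).1.2 : ℕ) : ZMod p) *
    ((((code p).symm a).2 : ℕ) : ZMod p) + σ (ε e).1.1 (ε e).1.2, 0)
  fib e b := by
    have h : (univ.filter fun a => code p (((code p).symm a).1 - (((ε e).1.2 : ℕ) : ZMod p) *
        ((((code p).symm a).2 : ℕ) : ZMod p) + σ (ε e).1.1 (ε e).1.2, 0) = b).card ≤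
        (univ : Finset (Fin 2)).card := by
      refine card_le_card_of_injOn (fun a => ((code p).symm a).2) (fun _ _ => mem_coe.2 (mem_univ _))
        ?_
      intro a ha a' ha' haa
      have h1 := (mem_filter.1 (mem_coe.1 ha)).2
      have h2 := (mem_filter.1 (mem_coe.1 ha')).2
      rw [← h2] at h1
      have h3 := (Prod.mk.inj ((code p).injective h1)).1
      have haa' : ((code p).symm a).2 = ((code p).symm a').2 := haa
      rw [haa'] at h3
      have h4 : ((code p).symm a).1 = ((code p).symm a').1 := by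
        simpa using h3
      exact (code p).symm.injective (Prod.ext h4 haa')
    simpa using h

/-- the labels of the game -/
noncomputable def conv [NeZero p] : Fin n ⊕ Fin n → ZMod p × Fin 2 → Fin (2 * p)
  | Sum.inl _, b => code p b
  | Sum.inr _, a => code p (a.1, 0)

/-- the system of locally consistent labellings of the game -/
noncomputable def loc [NeZero p] {l : ℕ} (F : Local (Fin n ⊕ Fin n) (ZMod p × Fin 2) l) :
    Local (Fin n ⊕ Fin n) (Fin (2 * p)) l where
  C S ρ := ∃ ρ', F.C (S.image Sum.swap) ρ' ∧ ∀ u ∈ S, ρ u = conv u (ρ' u.swap)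
  empty := by
    obtain ⟨ρ, hρ⟩ := F.empty
    exact ⟨fun u => conv u (ρ u.swap), ρ, by simpa using hρ, fun _ _ => rfl⟩
  mono := by
    rintro S T ρ hST ⟨ρ', h1, h2⟩
    exact ⟨ρ', F.mono _ _ _ (image_subset_image hST) h1, fun u hu => h2 u (hST hu)⟩
  ext := by
    rintro S T ρ hST hT ⟨ρ', h1, h2⟩
    obtain ⟨ρ'', h3, h4⟩ := F.ext _ (T.image Sum.swap) ρ' (image_subset_image hST)
      (card_image_le.trans hT) h1
    refine ⟨fun u => conv u (ρ'' u.swap), fun u hu => ?_, ρ'', h4, fun _ _ => rfl⟩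
    rw [h2 u hu]
    exact congrArg (conv u) (h3 _ (mem_image_of_mem _ hu))

theorem loc_con [NeZero p] {l D : ℕ} (φ : Fin n → Fin D → Fin n) (B : Finset (Fin n))
    (σ : Fin n → Fin D → ZMod p) (ε : Fin m ≃ {e : Fin n × Fin D // e.1 ∉ B})
    (F : Local (Fin n ⊕ Fin n) (ZMod p × Fin 2) l)
    (hF : ∀ S ρ, F.C S ρ → (gameGraph (d := 2) φ B σ).SatOn S ρ) :
    ∀ W ρ, (loc F).C W ρ → ∀ L : Fin n ⊕ Fin n → Fin (2 * p), (∀ v ∈ W, L v = ρ v) →
      (mkGame φ B σ ε).SatIn W L := by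
  rintro W ρ ⟨ρ', h1, h2⟩ L hL e he1 he2
  have h3 := hF _ _ h1 (ε e) (mem_ein.2 ⟨mem_image.2 ⟨_, he2, rfl⟩, mem_image.2 ⟨_, he1, rfl⟩⟩)
  unfold Game.Sat
  rw [hL _ he1, hL _ he2, h2 _ he1, h2 _ he2]
  have h4 : (ρ' (Sum.inr (ε e).1.1)).1 - (((ε e).1.2 : ℕ) : ZMod p) *
      (((ρ' (Sum.inr (ε e).1.1)).2 : ℕ) : ZMod p) + σ (ε e).1.1 (ε e).1.2 =
      (ρ' (Sum.inl (φ (ε e).1.1 (ε e).1.2))).1 := h3
  show code p (((code p).symm (code p (ρ' (Sum.inr (ε e).1.1)))).1 - (((ε e).1.2 : ℕ) : ZMod p) *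
    ((((code p).symm (code p (ρ' (Sum.inr (ε e).1.1)))).2 : ℕ) : ZMod p) +
      σ (ε e).1.1 (ε e).1.2, 0) = code p ((ρ' (Sum.inl (φ (ε e).1.1 (ε e).1.2))).1, 0)
  rw [Equiv.symm_apply_apply, ← h4]

theorem value_le [NeZero p] {D K : ℕ} (φ : Fin n → Fin D → Fin n) (B : Finset (Fin n))
    (σ : Fin n → Fin D → ZMod p) (ε : Fin m ≃ {e : Fin n × Fin D // e.1 ∉ B})
    (h : ∀ (x : Fin n → ZMod p × Fin 2) (y : Fin n → ZMod p),
      (univ.filter fun e : Fin n × Fin D => e.1 ∉ B ∧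
        (x e.1).1 - ((e.2 : ℕ) : ZMod p) * (((x e.1).2 : ℕ) : ZMod p) + σ e.1 e.2
          = y (φ e.1 e.2)).card < K) (L : Fin n ⊕ Fin n → Fin (2 * p)) :
    (univ.filter fun e => (mkGame φ B σ ε).Sat L e).card < K := by
  refine lt_of_le_of_lt ?_ (h (fun w => (code p).symm (L (Sum.inl w)))
    (fun v => ((code p).symm (L (Sum.inr v))).1))
  refine card_le_card_of_injOn (fun e => (ε e).1) ?_ ?_
  · intro e he
    have h1 := (mem_filter.1 (mem_coe.1 he)).2
    refine mem_coe.2 (mem_filter.2 ⟨mem_univ _, (ε e).2, ?_⟩)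
    have h2 : code p _ = L (Sum.inr _) := h1
    rw [← Equiv.eq_symm_apply] at h2
    have h3 := congrArg Prod.fst h2
    exact h3
  · intro e _ e' _ he
    exact ε.injective (Subtype.ext he)

end

/-- linear local consistency and small value -/
theorem exists_game (p : ℕ) (hp : p.Prime) : ∃ Q n0 : ℕ, 1 ≤ Q ∧ ∀ n : ℕ, n0 ≤ n → ∀ K : ℕ,
    (2 * p ^ 2) ^ n * (n * p).choose K < p ^ K → ∃ m : ℕ, m ≤ p * n ∧ p * n ≤ 2 * m ∧
    ∃ G : Game n (2 * p) m, (∀ u, (univ.filter fun e => G.src e = u).card ≤ p) ∧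
    (∀ L, (univ.filter fun e => G.Sat L e).card < K) ∧
    ∃ F : Local (Fin n ⊕ Fin n) (Fin (2 * p)) (n / Q),
      ∀ W ρ, F.C W ρ → ∀ L : Fin n ⊕ Fin n → Fin (2 * p), (∀ v ∈ W, L v = ρ v) →
        G.SatIn W L := by
  have : NeZero p := ⟨hp.ne_zero⟩
  set r : ℕ := 2 * (2 * p) + 4 with hr
  set h : ℕ := 3 * r with hh
  set C0 : ℕ := (8 * (6 * 2 ^ p)) ^ (2 * h) with hC0
  have hC0pos : 0 < C0 := by positivity
  obtain ⟨n0, hn0⟩ := exL p (2 * h) r (by omega)
  refine ⟨C0 * (4 * (h + 1)), n0, Nat.mul_pos hC0pos (by omega), fun n hn K hK => ?_⟩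
  obtain ⟨φ, B, hB, hsp, hgi⟩ := hn0 n hn
  obtain ⟨σ, hσ⟩ := shL n p p 2 K hp.one_lt.le φ B hK
  set m : ℕ := Fintype.card {e : Fin n × Fin p // e.1 ∉ B} with hm
  have hmc : m = (n - B.card) * p := card_EE B
  have hBn : B.card ≤ n := by
    have := card_le_univ B
    rwa [Fintype.card_fin] at this
  set ε : Fin m ≃ {e : Fin n × Fin p // e.1 ∉ B} := (Fintype.equivFin _).symm with hε
  set G := gameGraph (d := 2) φ B σ with hG
  have hsparse : G.Sparse (2 * h) (n / C0) := by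
    intro S hS
    refine (ein_le φ B σ S).trans (hsp S ?_)
    calc C0 * S.card ≤ C0 * (n / C0) := Nat.mul_le_mul_left _ hS
      _ ≤ n := Nat.mul_div_le n C0
  have hgirth : G.Girth r := fun S hS hSr => lt_of_le_of_lt (ein_le φ B σ S) (hgi S hS hSr)
  obtain ⟨F, hF⟩ := lo_all (Fin n ⊕ Fin n) _ (ZMod p × Fin 2) G r h (n / C0)
    (n / (C0 * (4 * (h + 1)))) (by omega) le_rfl
    (gameGraph_surj (by norm_num) φ B σ) (t_MX n p p 2 hp le_rfl le_rfl φ B σ) hgirth hsparse
    (by rw [← Nat.div_div_eq_div_mul]; exact Nat.mul_div_le _ _)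
  refine ⟨m, ?_, ?_, mkGame φ B σ ε, fun u => ?_, value_le φ B σ ε hσ, loc F,
    loc_con φ B σ ε F hF⟩
  · rw [hmc, mul_comm]
    exact Nat.mul_le_mul_left _ (Nat.sub_le _ _)
  · rw [hmc]
    have h1 : n ≤ 2 * (n - B.card) := by omega
    calc p * n ≤ p * (2 * (n - B.card)) := Nat.mul_le_mul_left _ h1
      _ = _ := by ring
  · have h1 : (univ.filter fun e => (mkGame φ B σ ε).src e = u).card ≤
        (univ : Finset (Fin p)).card := by
      refine card_le_card_of_injOn (fun e => (ε e).1.2) (fun _ _ => mem_coe.2 (mem_univ _)) ?_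
      intro e he e' he' hee
      have h2 : (ε e).1.1 = u := (mem_filter.1 (mem_coe.1 he)).2
      have h3 : (ε e').1.1 = u := (mem_filter.1 (mem_coe.1 he')).2
      exact ε.injective (Subtype.ext (Prod.ext (h2.trans h3.symm) hee))
    simpa using h1

end Pool.Agent.T6.H63.RW
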