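import Pool.Agent.T6.H63.RW.Main

/-!
# Short refutations of unique games
-/

open scoped Classical
open Finset

namespace Pool.Agent.T6.H63.RW

section

variable {V Λ : Type} [Fintype V] [Fintype Λ]

/-- the line follows from at most `r` lines of the list and the constraints inside a set of at most
`t` vertices -/
def Follows (Con : Finset V → (V → Λ) → Prop) (r t : ℕ) (l : List (Line V Λ)) (x : Line V Λ) :
    Prop :=
  ∃ P : List (Line V Λ), P.length ≤ r ∧ (∀ y ∈ P, y ∈ l) ∧ ∃ W : Finset V, W.card ≤ t ∧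
    ∀ L : V → Λ, Con W L → (∀ y ∈ P, y.Holds L) → x.Holds L

/-- a derivation -/
def Deriv (Con : Finset V → (V → Λ) → Prop) (r t : ℕ) (l : List (Line V Λ)) : Prop :=
  ∀ i (h : i < l.length), (l[i]).dom.card ≤ t ∧ Follows Con r t (l.take i) l[i]

variable {Con : Finset V → (V → Λ) → Prop} {r t : ℕ}

theorem Deriv.nil : Deriv Con r t [] := fun i h => absurd h (Nat.not_lt_zero i)

theorem Deriv.snoc {l : List (Line V Λ)} (h : Deriv Con r t l) {x : Line V Λ}
    (hx : x.dom.card ≤ t) (hf : Follows Con r t l x) : Deriv Con r t (l ++ [x]) := by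
  intro i hi
  rw [List.length_append, List.length_singleton] at hi
  rcases Nat.lt_or_ge i l.length with h1 | h1
  · have h2 := h i h1
    rw [List.getElem_append_left h1, List.take_append_of_le_length h1.le]
    exact h2
  · have h3 : i = l.length := by omega
    subst h3
    rw [List.getElem_append_right (le_refl _)]
    simp only [Nat.sub_self, List.getElem_cons_zero]
    rw [List.take_append_of_le_length (le_refl _), List.take_length]
    exact ⟨hx, hf⟩

theorem Deriv.step {l : List (Line V Λ)} (h : Deriv Con r t l) (i : Fin l.length) :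
    Step Con r t (fun j : Fin l.length => l[j]) i := by
  obtain ⟨P, hP, hPl, W, hW, himp⟩ := (h i i.2).2
  have h1 : ∀ y : {y // y ∈ P}, ∃ j : Fin l.length, j < i ∧ l[j] = y.1 := by
    intro y
    have h2 := hPl y.1 y.2
    rw [List.mem_take_iff_getElem] at h2
    obtain ⟨j, hj, hj2⟩ := h2
    have hj3 : j < (i : ℕ) ∧ j < l.length := by
      rw [lt_min_iff] at hj
      exact hj
    exact ⟨⟨j, hj3.2⟩, hj3.1, hj2⟩
  choose f hf1 hf2 using h1
  refine ⟨(P.attach.map f).toFinset, ?_, ?_, W, hW, ?_⟩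
  · refine (List.toFinset_card_le _).trans ?_
    rw [List.length_map, List.length_attach]
    exact hP
  · intro j hj
    rw [List.mem_toFinset, List.mem_map] at hj
    obtain ⟨y, -, rfl⟩ := hj
    exact hf1 y
  · intro L hL hall
    refine himp L hL fun y hy => ?_
    have h3 := hall (f ⟨y, hy⟩) (by
      rw [List.mem_toFinset, List.mem_map]
      exact ⟨⟨y, hy⟩, List.mem_attach _ _, rfl⟩)
    have h4 : (l[f ⟨y, hy⟩]).Holds L := h3
    rw [hf2 ⟨y, hy⟩] at h4
    exact h4

/-- the line `L v = σ (L v0)` -/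
noncomputable def relLine (v0 v : V) (σ : Λ → Λ) : Line V Λ where
  un _ := ∅
  dom := {v0, v}
  pred L := L v = σ (L v0)
  loc L L' h h1 := by
    rw [← h v (by simp), ← h v0 (by simp)]
    exact h1

theorem relLine_dom (v0 v : V) (σ : Λ → Λ) : (relLine v0 v σ).dom.card ≤ 2 := card_le_two

theorem relLine_holds {v0 v : V} {σ : Λ → Λ} {L : V → Λ} :
    (relLine v0 v σ).Holds L ↔ L v = σ (L v0) := by
  constructor
  · rintro (⟨w, hw⟩ | h)
    · exact absurd hw (notMem_empty _)
    · exact h
  · exact fun h => Or.inr h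

end

section

variable {N q m : ℕ}

/-- the line `j ≤ L v0` -/
def leLine (v0 : Fin N ⊕ Fin N) (j : ℕ) : Line (Fin N ⊕ Fin N) (Fin q) where
  un _ := ∅
  dom := {v0}
  pred L := j ≤ (L v0 : ℕ)
  loc L L' h h1 := by
    rw [← h v0 (by simp)]
    exact h1

theorem leLine_holds {v0 : Fin N ⊕ Fin N} {j : ℕ} {L : Fin N ⊕ Fin N → Fin q} :
    (leLine v0 j).Holds L ↔ j ≤ (L v0 : ℕ) := by
  constructor
  · rintro (⟨w, hw⟩ | h)
    · exact absurd hw (notMem_empty _)
    · exact h
  · exact fun h => Or.inr h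

/-- no edge leaves the set -/
def Clo (G : Game N q m) (C : Finset (Fin N ⊕ Fin N)) : Prop :=
  ∀ e, Sum.inl (G.src e) ∈ C ↔ Sum.inr (G.tgt e) ∈ C

/-- label propagation -/
theorem propagate (G : Game N q m) (hu : ∀ e, Function.Injective (G.map e))
    (Z : Finset (Fin N ⊕ Fin N)) (hZ : Clo G Z) (v0 : Fin N ⊕ Fin N) (hv0 : v0 ∉ Z) :
    ∃ (C : Finset (Fin N ⊕ Fin N)) (σ : Fin N ⊕ Fin N → Fin q → Fin q)
      (l : List (Line (Fin N ⊕ Fin N) (Fin q))), Disjoint C Z ∧ v0 ∈ C ∧ Clo G C ∧
      Deriv G.SatIn 3 2 l ∧ l.length ≤ C.card ∧ ∀ v ∈ C, relLine v0 v (σ v) ∈ l := by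
  let T : Finset (Finset (Fin N ⊕ Fin N)) := univ.filter fun C =>
    ∃ (σ : Fin N ⊕ Fin N → Fin q → Fin q) (l : List (Line (Fin N ⊕ Fin N) (Fin q))),
      Disjoint C Z ∧ v0 ∈ C ∧ Deriv G.SatIn 3 2 l ∧ l.length ≤ C.card ∧
      ∀ v ∈ C, relLine v0 v (σ v) ∈ l
  have hT : ({v0} : Finset (Fin N ⊕ Fin N)) ∈ T := by
    refine mem_filter.2 ⟨mem_univ _, fun _ => id, [relLine v0 v0 id], ?_, mem_singleton_self _,
      ?_, ?_, ?_⟩
    · rw [disjoint_singleton_left]
      exact hv0
    · have h1 : Deriv G.SatIn 3 2 ([] ++ [relLine v0 v0 id]) := by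
        refine Deriv.nil.snoc ?_ ⟨[], by simp, by simp, ∅, by simp, ?_⟩
        · exact relLine_dom _ _ _
        intro L _ _
        exact relLine_holds.2 rfl
      exact h1
    · simp
    · intro v hv
      rw [mem_singleton] at hv
      subst hv
      simp
  obtain ⟨C, hC, hmax⟩ := Finset.exists_max_image T card ⟨_, hT⟩
  obtain ⟨-, σ, l, h1, h2, h3, h4, h5⟩ := mem_filter.1 hC
  -- adding a vertex
  have hadd : ∀ u w : Fin N ⊕ Fin N, u ∈ C → w ∉ C → w ∉ Z → ∀ g : Fin q → Fin q,
      (∀ L, G.SatIn {u, w} L → L w = g (L u)) → False := by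
    intro u w hu hw hwZ g hg
    have h6 : insert w C ∈ T := by
      refine mem_filter.2 ⟨mem_univ _, Function.update σ w (g ∘ σ u),
        l ++ [relLine v0 w (g ∘ σ u)], ?_, mem_insert_of_mem h2, ?_, ?_, ?_⟩
      · rw [disjoint_insert_left]
        exact ⟨hwZ, h1⟩
      · refine h3.snoc (relLine_dom _ _ _)
          ⟨[relLine v0 u (σ u)], by simp, ?_, {u, w}, card_le_two, ?_⟩
        · intro y hy
          rw [List.mem_singleton] at hy
          subst hy
          exact h5 u hu
        · intro L hL hy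
          have h7 := relLine_holds.1 (hy _ (List.mem_singleton_self _))
          apply relLine_holds.2
          rw [hg L hL, h7]
          rfl
      · rw [List.length_append, List.length_singleton, card_insert_of_notMem hw]
        omega
      · intro v hv
        rw [List.mem_append, List.mem_singleton]
        by_cases hvw : v = w
        · subst hvw
          right
          rw [Function.update_self]
        · left
          rw [Function.update_of_ne hvw]
          exact h5 v (mem_of_mem_insert_of_ne hv hvw)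
    have h8 := hmax _ h6
    rw [card_insert_of_notMem hw] at h8
    omega
  refine ⟨C, σ, l, h1, h2, ?_, h3, h4, h5⟩
  intro e
  constructor
  · intro h6
    by_contra h7
    have h8 : Sum.inr (G.tgt e) ∉ Z := by
      intro h9
      exact disjoint_left.1 h1 h6 ((hZ e).2 h9)
    refine hadd _ _ h6 h7 h8 (G.map e) fun L hL => ?_
    exact (hL e (by simp) (by simp)).symm
  · intro h6
    by_contra h7
    have h8 : Sum.inl (G.src e) ∉ Z := by
      intro h9
      exact disjoint_left.1 h1 h6 ((hZ e).1 h9)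
    have hb := Finite.injective_iff_bijective.1 (hu e)
    refine hadd _ _ h6 h7 h8 (Equiv.ofBijective _ hb).symm fun L hL => ?_
    have h9 : G.map e (L (Sum.inl (G.src e))) = L (Sum.inr (G.tgt e)) := hL e (by simp) (by simp)
    rw [← h9, Equiv.eq_symm_apply]
    rfl

/-- unsatisfiable unique games have short refutations -/
theorem unique_short (G : Game N q m) (hu : ∀ e, Function.Injective (G.map e))
    (hun : ∀ L, ∃ e, ¬ G.Sat L e) : ∃ s : ℕ, s ≤ 2 * N + q + 1 ∧ Nonempty (G.Refutation 3 2 s) := by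
  -- a maximal closed set with a satisfying labelling
  let T : Finset (Finset (Fin N ⊕ Fin N)) := univ.filter fun Z =>
    Clo G Z ∧ ∃ L, ∀ e, Sum.inl (G.src e) ∈ Z → G.Sat L e
  by_cases hq : 1 ≤ q
  swap
  · -- no labels
    have hq0 : q = 0 := by omega
    subst hq0
    by_cases hN : 1 ≤ N
    · refine ⟨1, by omega, ⟨⟨fun _ => leLine (Sum.inl ⟨0, hN⟩) 0, ?_, ?_, ?_⟩⟩⟩
      · intro _
        show ({Sum.inl ⟨0, hN⟩} : Finset (Fin N ⊕ Fin N)).card ≤ 2
        simp
      · intro i
        refine ⟨∅, by simp, by simp, ∅, by simp, fun L => ?_⟩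
        exact (L (Sum.inl ⟨0, hN⟩)).elim0
      · exact ⟨0, fun _ => rfl, fun L => (L (Sum.inl ⟨0, hN⟩)).elim0⟩
    · obtain ⟨e, -⟩ := hun fun v => by
        rcases v with v | v
        · exact absurd v.2 (by omega)
        · exact absurd v.2 (by omega)
      exact absurd (G.src e).2 (by omega)
  have hT : (∅ : Finset (Fin N ⊕ Fin N)) ∈ T := by
    refine mem_filter.2 ⟨mem_univ _, fun e => by simp, fun _ => ⟨0, hq⟩, fun e he => ?_⟩
    exact absurd he (notMem_empty _)
  obtain ⟨Z, hZ, hmax⟩ := Finset.exists_max_image T card ⟨_, hT⟩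
  obtain ⟨-, hZ1, L0, hL0⟩ := mem_filter.1 hZ
  have hZu : ∃ v0, v0 ∉ Z := by
    by_contra hc
    push Not at hc
    obtain ⟨e, he⟩ := hun L0
    exact he (hL0 e (hc _))
  obtain ⟨v0, hv0⟩ := hZu
  obtain ⟨C, σ, l, h1, h2, h3, h4, h5, h6⟩ := propagate G hu Z hZ1 v0 hv0
  have hbad : ∀ a : Fin q, ∃ e, Sum.inl (G.src e) ∈ C ∧
      G.map e (σ (Sum.inl (G.src e)) a) ≠ σ (Sum.inr (G.tgt e)) a := by
    intro a
    by_contra hc
    push Not at hc
    have h7 : Z ∪ C ∈ T := by
      refine mem_filter.2 ⟨mem_univ _, fun e => ?_, fun v => if v ∈ C then σ v a else L0 v,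
        fun e he => ?_⟩
      · rw [mem_union, mem_union, hZ1 e, h3 e]
      · unfold Game.Sat
        by_cases h8 : Sum.inl (G.src e) ∈ C
        · have h9 := (h3 e).1 h8
          simp only [h8, h9, if_true]
          exact hc e h8
        · have h9 : Sum.inr (G.tgt e) ∉ C := fun h => h8 ((h3 e).2 h)
          simp only [h8, h9, if_false]
          rw [mem_union] at he
          exact hL0 e (he.resolve_right h8)
    have h8 := hmax _ h7
    rw [card_union_of_disjoint h1.symm] at h8
    have h9 : 0 < C.card := card_pos.2 ⟨v0, h2⟩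
    omega
  choose ed hed1 hed2 using hbad
  -- excluding the labels of `v0` one by one
  have key : ∀ j : ℕ, j ≤ q → ∃ l' : List (Line (Fin N ⊕ Fin N) (Fin q)),
      Deriv G.SatIn 3 2 l' ∧ l'.length ≤ C.card + j + 1 ∧
      (∀ v ∈ C, relLine v0 v (σ v) ∈ l') ∧ leLine v0 j ∈ l' := by
    intro j
    induction j with
    | zero =>
      intro _
      refine ⟨l ++ [leLine v0 0], h4.snoc ?_ ⟨[], by simp, by simp, ∅, by simp, ?_⟩, ?_, ?_, ?_⟩
      · show ({v0} : Finset (Fin N ⊕ Fin N)).card ≤ 2
        simp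
      · intro L _ _
        exact leLine_holds.2 (Nat.zero_le _)
      · rw [List.length_append, List.length_singleton]
        omega
      · intro v hv
        exact List.mem_append_left _ (h6 v hv)
      · simp
    | succ j ih =>
      intro hj
      obtain ⟨l', g1, g2, g3, g4⟩ := ih (by omega)
      set e := ed ⟨j, by omega⟩ with he
      refine ⟨l' ++ [leLine v0 (j + 1)], g1.snoc ?_ ⟨[leLine v0 j,
        relLine v0 (Sum.inl (G.src e)) (σ (Sum.inl (G.src e))),
        relLine v0 (Sum.inr (G.tgt e)) (σ (Sum.inr (G.tgt e)))], by simp, ?_,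
        {Sum.inl (G.src e), Sum.inr (G.tgt e)}, card_le_two, ?_⟩, ?_, ?_, ?_⟩
      · show ({v0} : Finset (Fin N ⊕ Fin N)).card ≤ 2
        simp
      · intro y hy
        simp only [List.mem_cons, List.not_mem_nil, or_false] at hy
        rcases hy with rfl | rfl | rfl
        · exact g4
        · exact g3 _ (hed1 _)
        · exact g3 _ ((h3 _).1 (hed1 _))
      · intro L hL hy
        have k1 := leLine_holds.1 (hy (leLine v0 j) (by simp))
        have k2 := relLine_holds.1 (hy (relLine v0 (Sum.inl (G.src e))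
          (σ (Sum.inl (G.src e)))) (by simp))
        have k3 := relLine_holds.1 (hy (relLine v0 (Sum.inr (G.tgt e))
          (σ (Sum.inr (G.tgt e)))) (by simp))
        have k4 : G.map e (L (Sum.inl (G.src e))) = L (Sum.inr (G.tgt e)) :=
          hL e (by simp) (by simp)
        apply leLine_holds.2
        by_contra hcon
        have k5 : L v0 = ⟨j, by omega⟩ := Fin.ext (by simp only; omega)
        rw [k2, k3, k5] at k4
        exact hed2 ⟨j, by omega⟩ k4
      · rw [List.length_append, List.length_singleton]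
        omega
      · intro v hv
        exact List.mem_append_left _ (g3 v hv)
      · simp
  obtain ⟨l', g1, g2, g3, g4⟩ := key q le_rfl
  have hC : C.card ≤ 2 * N := by
    refine (card_le_univ C).trans ?_
    rw [Fintype.card_sum, Fintype.card_fin]
    omega
  refine ⟨l'.length, by omega, ⟨⟨fun j => l'[j], fun i => (g1 i i.2).1, fun i => g1.step i, ?_⟩⟩⟩
  obtain ⟨i, hi, hi2⟩ := List.mem_iff_getElem.1 g4
  refine ⟨⟨i, hi⟩, fun v => ?_, fun L hL => ?_⟩
  · show (l'[i]).un v = ∅
    rw [hi2]
    rfl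
  · have k1 : (l'[i]).pred L := hL
    rw [hi2] at k1
    have k2 : q ≤ (L v0 : ℕ) := k1
    have := (L v0).2
    omega

end

end Pool.Agent.T6.H63.RW
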